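import Mathlib

/-!
Deterministic part: for a survival function with the four-point inequality, Jensen's inequality,
integrability and strictness.
-/

open MeasureTheory Set Filter
open scoped ENNReal NNReal Topology

namespace Pool.Agent.LibBoxExit

/-- The properties of the survival function used in the comparison of moments. -/
structure SurvFn (g : ℝ≥0 → ℝ) : Prop where
  nonneg : ∀ t, 0 ≤ g t
  le_one : ∀ t, g t ≤ 1
  anti : Antitone g
  zero : g 0 = 1
  four : ∀ r t s, g (r + (t + s)) * g t ≤ g (t + s) * g (r + t)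
  small : ∀ t : ℝ≥0, t ≠ 0 → 1 - g t ≤ 2 * Real.exp (-(1 / (2 * (t : ℝ))))
  one_lt : g 1 < 1

namespace SurvFn

variable {g : ℝ≥0 → ℝ}

/-- Jensen's inequality for products, from the four-point inequality. -/
lemma jensen (hg : SurvFn g) {ι : Type*} [DecidableEq ι] (m : ℝ≥0) (n : ℕ) :
    ∀ (S : Finset ι) (x : ι → ℝ≥0), S.card = n → ∑ i ∈ S, x i = n * m →
      ∏ i ∈ S, g (x i) ≤ g m ^ n := by
  induction n with
  | zero =>
    intro S x hS _
    rw [Finset.card_eq_zero] at hS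
    subst hS; simp
  | succ n ih =>
    intro S x hS hsum
    have hne : S.Nonempty := by
      rw [← Finset.card_pos, hS]; omega
    -- an index with x i ≤ m
    obtain ⟨i, hi, him⟩ : ∃ i ∈ S, x i ≤ m := by
      by_contra hcon
      push Not at hcon
      have : ∑ i ∈ S, m < ∑ i ∈ S, x i := Finset.sum_lt_sum_of_nonempty hne hcon
      rw [hsum, Finset.sum_const, hS, nsmul_eq_mul] at this
      exact absurd this (lt_irrefl _)
    have hcard : (S.erase i).card = n := by
      rw [Finset.card_erase_of_mem hi, hS]; rfl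
    have hsum' : x i + ∑ j ∈ S.erase i, x j = (n + 1 : ℕ) * m := by
      rw [Finset.add_sum_erase S x hi, hsum]
    rw [← Finset.mul_prod_erase S (fun j => g (x j)) hi]
    rcases Nat.eq_zero_or_pos n with hn | hn
    · subst hn
      rw [Finset.card_eq_zero] at hcard
      rw [hcard] at hsum' ⊢
      simp only [Finset.sum_empty, add_zero, Finset.prod_empty, mul_one] at hsum' ⊢
      rw [hsum']; simp
    -- an index with x j ≥ m among the others
    have hne' : (S.erase i).Nonempty := by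
      rw [← Finset.card_pos, hcard]; exact hn
    obtain ⟨j, hj, hjm⟩ : ∃ j ∈ S.erase i, m ≤ x j := by
      by_contra hcon
      push Not at hcon
      have h1 : ∑ j ∈ S.erase i, x j < ∑ j ∈ S.erase i, m := Finset.sum_lt_sum_of_nonempty hne' hcon
      rw [Finset.sum_const, hcard, nsmul_eq_mul] at h1
      have h2 : x i + ∑ j ∈ S.erase i, x j < m + n * m := add_lt_add_of_le_of_lt him h1
      rw [hsum'] at h2
      push_cast at h2
      rw [add_mul, one_mul, add_comm] at h2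
      exact absurd h2 (lt_irrefl _)
    set y : ℝ≥0 := x i + (x j - m) with hy
    set x' := Function.update x j y with hx'
    have hx'j : x' j = y := by rw [hx', Function.update_self]
    have hx'k : ∀ k ∈ (S.erase i).erase j, x' k = x k := by
      intro k hk
      rw [hx', Function.update_of_ne (Finset.ne_of_mem_erase hk)]
    have hsum'' : ∑ k ∈ S.erase i, x' k = n * m := by
      rw [← Finset.add_sum_erase _ x' hj, hx'j, Finset.sum_congr rfl hx'k]
      rw [← Finset.add_sum_erase _ x hj] at hsum'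
      have h3 : x i + (m + (x j - m) + ∑ k ∈ (S.erase i).erase j, x k) = (n + 1 : ℕ) * m := by
        rw [add_tsub_cancel_of_le hjm]; exact hsum'
      have h4 : m + (x i + (x j - m) + ∑ k ∈ (S.erase i).erase j, x k) = m + n * m := by
        push_cast at h3
        calc m + (x i + (x j - m) + ∑ k ∈ (S.erase i).erase j, x k)
            = x i + (m + (x j - m) + ∑ k ∈ (S.erase i).erase j, x k) := by ring
          _ = _ := by rw [h3]; ring
      exact add_left_cancel h4
    have hih := ih (S.erase i) x' hcard hsum''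
    rw [← Finset.mul_prod_erase (S.erase i) (fun k => g (x' k)) hj, hx'j,
      Finset.prod_congr rfl (fun k hk => by rw [hx'k k hk] :
        ∀ k ∈ (S.erase i).erase j, g (x' k) = g (x k))] at hih
    rw [← Finset.mul_prod_erase (S.erase i) (fun k => g (x k)) hj]
    have h4 := hg.four (m - x i) (x i) (x j - m)
    have e1 : m - x i + (x i + (x j - m)) = x j := by
      rw [← add_assoc, tsub_add_cancel_of_le him, add_tsub_cancel_of_le hjm]
    have e2 : m - x i + x i = m := tsub_add_cancel_of_le him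
    rw [e1, e2] at h4
    have hprod : 0 ≤ ∏ k ∈ (S.erase i).erase j, g (x k) := Finset.prod_nonneg fun k _ => hg.nonneg _
    calc g (x i) * (g (x j) * ∏ k ∈ (S.erase i).erase j, g (x k))
        = (g (x j) * g (x i)) * ∏ k ∈ (S.erase i).erase j, g (x k) := by ring
      _ ≤ (g y * g m) * ∏ k ∈ (S.erase i).erase j, g (x k) :=
          mul_le_mul_of_nonneg_right h4 hprod
      _ = g m * (g y * ∏ k ∈ (S.erase i).erase j, g (x k)) := by ring
      _ ≤ g m * g m ^ n := mul_le_mul_of_nonneg_left hih (hg.nonneg m)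
      _ = g m ^ (n + 1) := by ring

lemma jensen_fin (hg : SurvFn g) {d : ℕ} (s : Fin d → ℝ≥0) (hs : ∑ k, s k = d) (t : ℝ≥0) :
    ∏ k, g (t * s k) ≤ g t ^ d := by
  refine hg.jensen t d Finset.univ (fun k => t * s k) (by simp) ?_
  rw [← Finset.mul_sum, hs, mul_comm]

lemma submul (hg : SurvFn g) (r s : ℝ≥0) : g (r + s) ≤ g r * g s := by
  have := hg.four r 0 s
  simp only [zero_add, add_zero, hg.zero, mul_one] at this
  linarith

lemma nat_le (hg : SurvFn g) (n : ℕ) : g n ≤ g 1 ^ n := by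
  induction n with
  | zero => simp [hg.zero]
  | succ n ih =>
    push_cast
    calc g (n + 1) ≤ g n * g 1 := hg.submul _ _
      _ ≤ g 1 ^ n * g 1 := mul_le_mul_of_nonneg_right ih (hg.nonneg 1)
      _ = g 1 ^ (n + 1) := by ring

/-- exponential decay -/
lemma exp_decay (hg : SurvFn g) :
    ∃ c C : ℝ, 0 < c ∧ 0 ≤ C ∧ ∀ t : ℝ≥0, g t ≤ C * Real.exp (-c * t) := by
  set q := max (g 1) (1 / 2) with hq
  have hq0 : 0 < q := lt_of_lt_of_le (by norm_num) (le_max_right _ _)
  have hq1 : q < 1 := max_lt hg.one_lt (by norm_num)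
  have hlog : Real.log q < 0 := Real.log_neg hq0 hq1
  refine ⟨-Real.log q, q⁻¹, by linarith, by positivity, fun t => ?_⟩
  have h1 : g t ≤ g (⌊t⌋₊ : ℕ) := hg.anti (Nat.floor_le zero_le)
  have h2 : g (⌊t⌋₊ : ℕ) ≤ q ^ ⌊t⌋₊ :=
    (hg.nat_le _).trans (pow_le_pow_left₀ (hg.nonneg 1) (le_max_left _ _) _)
  have h3 : q ^ ⌊t⌋₊ ≤ q⁻¹ * Real.exp (-(-Real.log q) * t) := by
    have h4 : (t : ℝ) < (⌊t⌋₊ : ℕ) + 1 := by
      have := Nat.lt_floor_add_one t
      exact_mod_cast this
    have h5 : q⁻¹ * Real.exp (-(-Real.log q) * t) = Real.exp (Real.log q * (t - 1)) := by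
      rw [neg_neg, mul_sub, mul_one, Real.exp_sub, Real.exp_log hq0]; field_simp
    have h6 : q ^ ⌊t⌋₊ = Real.exp (Real.log q * (⌊t⌋₊ : ℕ)) := by
      rw [mul_comm, Real.exp_nat_mul, Real.exp_log hq0]
    rw [h5, h6, Real.exp_le_exp]
    nlinarith
  exact h1.trans (h2.trans h3)

/-- finiteness of the moments -/
lemma lintegral_lt_top (hg : SurvFn g) {d : ℕ} (hd : 0 < d) {p : ℝ} (hp : 0 < p) :
    ∫⁻ t in Ioi (0 : ℝ), ENNReal.ofReal (g t.toNNReal ^ d) * ENNReal.ofReal (t ^ (p - 1)) < ∞ := by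
  obtain ⟨c, C, hc, hC, hgC⟩ := hg.exp_decay
  have hint : IntegrableOn (fun x : ℝ => C * (x ^ (p - 1) * Real.exp (-c * x ^ (1 : ℝ)))) (Ioi 0) :=
    (integrableOn_rpow_mul_exp_neg_mul_rpow (by linarith) one_pos hc).const_mul C
  have h2 := hint.lintegral_lt_top
  refine lt_of_le_of_lt (setLIntegral_mono' measurableSet_Ioi fun t ht => ?_) h2
  have ht' : (0 : ℝ) < t := ht
  rw [← ENNReal.ofReal_mul (pow_nonneg (hg.nonneg _) _)]
  refine ENNReal.ofReal_le_ofReal ?_
  have h3 : g t.toNNReal ^ d ≤ g t.toNNReal := by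
    calc g t.toNNReal ^ d ≤ g t.toNNReal ^ 1 :=
          pow_le_pow_of_le_one (hg.nonneg _) (hg.le_one _) hd
      _ = _ := pow_one _
  have h4 := hgC t.toNNReal
  rw [Real.coe_toNNReal t ht'.le] at h4
  have h5 : 0 ≤ t ^ (p - 1) := Real.rpow_nonneg ht'.le _
  rw [Real.rpow_one]
  calc g t.toNNReal ^ d * t ^ (p - 1) ≤ (C * Real.exp (-c * t)) * t ^ (p - 1) :=
        mul_le_mul_of_nonneg_right (h3.trans h4) h5
    _ = _ := by ring

/-- If `g (t)^d ≤ g (s t)` for all `t > 0` with some `s > 1`, contradiction with the small-time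
behaviour. -/
lemma no_power_bound (hg : SurvFn g) {d : ℕ} {s : ℝ≥0} (hs : 1 < s)
    (h : ∀ t : ℝ≥0, t ≠ 0 → g t ^ d ≤ g (s * t)) : False := by
  have hs0 : s ≠ 0 := (zero_lt_one.trans hs).ne'
  have hs' : (1 : ℝ) < s := by exact_mod_cast hs
  -- ψ = 1 - g
  have h1 : ∀ n : ℕ, 1 - g 1 ≤ (d : ℝ) ^ n * (1 - g ((s ^ n)⁻¹)) := by
    intro n
    induction n with
    | zero => simp
    | succ n ih =>
      refine ih.trans ?_
      rw [pow_succ, mul_assoc]
      refine mul_le_mul_of_nonneg_left ?_ (by positivity)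
      have h2 := h ((s ^ (n + 1))⁻¹) (inv_ne_zero (pow_ne_zero _ hs0))
      have h3 : s * (s ^ (n + 1))⁻¹ = (s ^ n)⁻¹ := by
        rw [pow_succ]; field_simp
      rw [h3] at h2
      have h4 := one_add_mul_le_pow (a := g ((s ^ (n + 1))⁻¹) - 1)
        (by linarith [hg.nonneg ((s ^ (n + 1))⁻¹)]) d
      rw [add_sub_cancel] at h4
      have h5 : (d : ℝ) * (g ((s ^ (n + 1))⁻¹) - 1) = -(d * (1 - g ((s ^ (n + 1))⁻¹))) := by ring
      linarith
  -- upper bound
  obtain ⟨N, hN⟩ := pow_unbounded_of_one_lt (d : ℝ) hs'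
  have h2 : ∀ n : ℕ, 1 - g 1 ≤ 2 * (((s : ℝ) ^ n) ^ N * Real.exp (-((s : ℝ) ^ n) / 2)) := by
    intro n
    refine (h1 n).trans ?_
    have h3 := hg.small ((s ^ n)⁻¹) (inv_ne_zero (pow_ne_zero _ hs0))
    have h4 : (1 / (2 * (((s ^ n)⁻¹ : ℝ≥0) : ℝ))) = (s : ℝ) ^ n / 2 := by
      push_cast; field_simp
    rw [h4] at h3
    have h5 : (d : ℝ) ^ n ≤ ((s : ℝ) ^ n) ^ N := by
      rw [← pow_mul, mul_comm n N, pow_mul]
      exact pow_le_pow_left₀ (by positivity) hN.le n
    have h6 : 0 ≤ 1 - g ((s ^ n)⁻¹) := by linarith [hg.le_one ((s ^ n)⁻¹)]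
    have h7 : -((s : ℝ) ^ n) / 2 = -((s : ℝ) ^ n / 2) := by ring
    rw [h7]
    calc (d : ℝ) ^ n * (1 - g ((s ^ n)⁻¹)) ≤ ((s : ℝ) ^ n) ^ N * (1 - g ((s ^ n)⁻¹)) :=
          mul_le_mul_of_nonneg_right h5 h6
      _ ≤ ((s : ℝ) ^ n) ^ N * (2 * Real.exp (-((s : ℝ) ^ n / 2))) :=
          mul_le_mul_of_nonneg_left h3 (by positivity)
      _ = _ := by ring
  have h3 : Tendsto (fun x : ℝ => 2 * (x ^ N * Real.exp (-x / 2))) atTop (𝓝 0) := by
    have h4 := (Real.tendsto_pow_mul_exp_neg_atTop_nhds_zero N).comp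
      (tendsto_id.atTop_div_const (zero_lt_two' ℝ))
    have h5 := (h4.const_mul ((2 : ℝ) ^ N)).const_mul 2
    simp only [mul_zero, Function.comp, id] at h5
    refine h5.congr fun x => ?_
    rw [div_pow, neg_div]; field_simp
  have h4 : Tendsto (fun n : ℕ => 2 * (((s : ℝ) ^ n) ^ N * Real.exp (-((s : ℝ) ^ n) / 2))) atTop
      (𝓝 0) := h3.comp (tendsto_pow_atTop_atTop_of_one_lt hs')
  have h5 : 1 - g 1 ≤ 0 := ge_of_tendsto' h4 h2
  linarith [hg.one_lt]

lemma measurable_comp (hg : SurvFn g) : Measurable (fun t : ℝ => g t.toNNReal) := by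
  refine Antitone.measurable ?_
  intro x y hxy
  exact hg.anti (Real.toNNReal_le_toNNReal hxy)

lemma measurable_comp_mul (hg : SurvFn g) (s : ℝ≥0) : Measurable (fun t : ℝ => g (t.toNNReal * s)) := by
  refine Antitone.measurable ?_
  intro x y hxy
  refine hg.anti ?_
  gcongr

/-- Comparison of the moment integrals. -/
lemma lintegral_le (hg : SurvFn g) {d : ℕ} (p : ℝ) (s : Fin d → ℝ≥0) (hs : ∑ k, s k = d) :
    ∫⁻ t in Ioi (0 : ℝ), ENNReal.ofReal (∏ k, g (t.toNNReal * s k)) * ENNReal.ofReal (t ^ (p - 1)) ≤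
    ∫⁻ t in Ioi (0 : ℝ), ENNReal.ofReal (g t.toNNReal ^ d) * ENNReal.ofReal (t ^ (p - 1)) := by
  refine setLIntegral_mono' measurableSet_Ioi fun t _ => ?_
  gcongr
  exact hg.jensen_fin s hs _

/-- Equality case. -/
lemma eq_one_of_lintegral_eq (hg : SurvFn g) {d : ℕ} (hd : 0 < d) {p : ℝ} (hp : 0 < p)
    (s : Fin d → ℝ≥0) (hs : ∑ k, s k = d)
    (heq : ∫⁻ t in Ioi (0 : ℝ),
        ENNReal.ofReal (∏ k, g (t.toNNReal * s k)) * ENNReal.ofReal (t ^ (p - 1)) =
      ∫⁻ t in Ioi (0 : ℝ), ENNReal.ofReal (g t.toNNReal ^ d) * ENNReal.ofReal (t ^ (p - 1))) :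
    ∀ k, s k = 1 := by
  by_contra hcon
  push Not at hcon
  -- some s k > 1
  obtain ⟨k, hk⟩ : ∃ k, 1 < s k := by
    by_contra hcon2
    push Not at hcon2
    obtain ⟨j, hj⟩ := hcon
    have h1 : ∑ k, s k < ∑ k : Fin d, (1 : ℝ≥0) :=
      Finset.sum_lt_sum (fun i _ => hcon2 i) ⟨j, Finset.mem_univ j, lt_of_le_of_ne (hcon2 j) hj⟩
    rw [hs] at h1
    simp at h1
  -- a.e. equality
  have hfin := (hg.lintegral_lt_top hd hp).ne
  have hae : (fun t : ℝ => ENNReal.ofReal (∏ k, g (t.toNNReal * s k)) * ENNReal.ofReal (t ^ (p - 1)))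
      =ᵐ[volume.restrict (Ioi 0)]
      (fun t : ℝ => ENNReal.ofReal (g t.toNNReal ^ d) * ENNReal.ofReal (t ^ (p - 1))) := by
    refine ae_eq_of_ae_le_of_lintegral_le ?_ (by rw [heq]; exact hfin) ?_ heq.ge
    · refine ae_of_all _ fun t => ?_
      change ENNReal.ofReal (∏ k, g (t.toNNReal * s k)) * ENNReal.ofReal (t ^ (p - 1)) ≤
        ENNReal.ofReal (g t.toNNReal ^ d) * ENNReal.ofReal (t ^ (p - 1))
      gcongr
      exact hg.jensen_fin s hs _
    · refine Measurable.aemeasurable ?_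
      have h1 : Measurable fun t : ℝ => ENNReal.ofReal (g t.toNNReal ^ d) :=
        (hg.measurable_comp.pow_const d).ennreal_ofReal
      have h2 : Measurable fun t : ℝ => ENNReal.ofReal (t ^ (p - 1)) := by fun_prop
      exact h1.mul h2
  rw [Filter.EventuallyEq, ae_restrict_iff' measurableSet_Ioi] at hae
  -- choose intermediate factor
  obtain ⟨s', hs'1, hs'2⟩ := exists_between hk
  refine hg.no_power_bound (d := d) hs'1 fun t ht => ?_
  have ht' : (0 : ℝ) < t := by positivity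
  have hs'0 : (0 : ℝ) < s' := by
    have : (1 : ℝ) < s' := by exact_mod_cast hs'1
    linarith
  have hsk0 : (0 : ℝ) < s k := by
    have : (s' : ℝ) < s k := by exact_mod_cast hs'2
    linarith
  have hlt : (s' * t / s k : ℝ) < t := by
    rw [div_lt_iff₀ hsk0, mul_comm]
    have : (s' : ℝ) < s k := by exact_mod_cast hs'2
    exact mul_lt_mul_of_pos_left this ht'
  -- a point of the a.e. set in between
  obtain ⟨u, hu, hu1, hu2⟩ : ∃ u : ℝ, (u ∈ Ioi (0 : ℝ) →
      ENNReal.ofReal (∏ k, g (u.toNNReal * s k)) * ENNReal.ofReal (u ^ (p - 1)) =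
      ENNReal.ofReal (g u.toNNReal ^ d) * ENNReal.ofReal (u ^ (p - 1))) ∧
      (s' * t / s k : ℝ) < u ∧ u < t := by
    by_contra hno
    push Not at hno
    have hsub : Ioo (s' * t / s k : ℝ) t ⊆ {u | ¬ (u ∈ Ioi (0 : ℝ) →
      ENNReal.ofReal (∏ k, g (u.toNNReal * s k)) * ENNReal.ofReal (u ^ (p - 1)) =
      ENNReal.ofReal (g u.toNNReal ^ d) * ENNReal.ofReal (u ^ (p - 1)))} := by
      intro u hu hcond
      exact absurd hu.2 (not_lt.2 (hno u hcond hu.1))
    have h0 := measure_mono_null hsub (ae_iff.1 hae)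
    rw [Real.volume_Ioo, ENNReal.ofReal_eq_zero] at h0
    linarith
  have hu0 : 0 < u := lt_trans (by positivity) hu1
  have heq2 := hu hu0
  have hne : ENNReal.ofReal (u ^ (p - 1)) ≠ 0 := by
    rw [Ne, ENNReal.ofReal_eq_zero, not_le]
    exact Real.rpow_pos_of_pos hu0 _
  have heq3 := (ENNReal.mul_left_inj hne ENNReal.ofReal_ne_top).1 heq2
  rw [ENNReal.ofReal_eq_ofReal_iff (Finset.prod_nonneg fun k _ => hg.nonneg _)
    (pow_nonneg (hg.nonneg _) _)] at heq3
  have htu : u.toNNReal ≤ t := by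
    rw [← NNReal.coe_le_coe, Real.coe_toNNReal u hu0.le]; exact hu2.le
  have hsu : s' * t ≤ u.toNNReal * s k := by
    rw [← NNReal.coe_le_coe]
    push_cast
    rw [Real.coe_toNNReal u hu0.le]
    exact ((div_lt_iff₀ hsk0).1 hu1).le
  calc g t ^ d ≤ g u.toNNReal ^ d := pow_le_pow_left₀ (hg.nonneg _) (hg.anti htu) d
    _ = ∏ k, g (u.toNNReal * s k) := heq3.symm
    _ ≤ g (u.toNNReal * s k) := by
        rw [← Finset.mul_prod_erase Finset.univ (fun k => g (u.toNNReal * s k)) (Finset.mem_univ k)]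
        refine mul_le_of_le_one_right (hg.nonneg _) ?_
        exact Finset.prod_le_one (fun i _ => hg.nonneg _) fun i _ => hg.le_one _
    _ ≤ g (s' * t) := hg.anti hsu

end SurvFn

end Pool.Agent.LibBoxExit
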