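import Pool.Agent.Lib_MP_1e851b_pr.Defs

/-!
The first Dirichlet eigenvalue (variational definition) of a box.
-/

open MeasureTheory ProbabilityTheory Set Filter
open scoped ENNReal NNReal Topology ContDiff

namespace Pool.Agent.Results.MP_1e851b_pr

variable {d : ℕ}

/-- basis vector -/
noncomputable abbrev eb (k : Fin d) : EuclideanSpace ℝ (Fin d) := EuclideanSpace.basisFun (Fin d) ℝ k

lemma norm_fderiv_sq (u : EuclideanSpace ℝ (Fin d) → ℝ) (x : EuclideanSpace ℝ (Fin d)) :
    ‖fderiv ℝ u x‖ ^ 2 = ∑ k, (fderiv ℝ u x (eb k)) ^ 2 :=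
  (EuclideanSpace.basisFun (Fin d) ℝ).norm_dual _

lemma integrable_of_compact_support' {K : Set (EuclideanSpace ℝ (Fin d))} (hK : IsCompact K)
    {φ : EuclideanSpace ℝ (Fin d) → ℝ} (hφ : ContinuousOn φ K) (h0 : ∀ x, x ∉ K → φ x = 0) :
    Integrable φ :=
  (hφ.integrableOn_compact hK).integrable_of_forall_notMem_eq_zero h0

lemma coord_eb (k : Fin d) : (eb k : EuclideanSpace ℝ (Fin d)) k = 1 := by
  simp [eb]

lemma coord_eb_ne {j k : Fin d} (h : j ≠ k) : (eb k : EuclideanSpace ℝ (Fin d)) j = 0 := by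
  simp [eb, h]

/-- the coordinate functional -/
noncomputable abbrev pr (k : Fin d) : EuclideanSpace ℝ (Fin d) →L[ℝ] ℝ := EuclideanSpace.proj k

lemma one_dim_bound {a : Fin d → ℝ} (ha : ∀ k, 0 < a k) {u : EuclideanSpace ℝ (Fin d) → ℝ}
    (hu : ContDiff ℝ ∞ u) (hc : HasCompactSupport u) (hs : tsupport u ⊆ box a) (k : Fin d) :
    (Real.pi / (2 * a k)) ^ 2 * ∫ x, u x ^ 2 ≤ ∫ x, (fderiv ℝ u x (eb k)) ^ 2 := by
  set c := Real.pi / (2 * a k) with hcdef
  have hc0 : 0 < c := by have := ha k; positivity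
  set K := tsupport u with hK
  have hKc : IsCompact K := hc
  have hud : Differentiable ℝ u := hu.differentiable (by simp)
  have hcos : ∀ x ∈ K, Real.cos (c * x k) ≠ 0 := by
    intro x hx
    have h1 : |x k| < a k := hs hx k
    have h2 : |c * x k| < Real.pi / 2 := by
      rw [abs_mul, abs_of_pos hc0, hcdef]
      calc Real.pi / (2 * a k) * |x k| < Real.pi / (2 * a k) * a k := by
            have := ha k; gcongr
        _ = Real.pi / 2 := by have := (ha k).ne'; field_simp
    rw [abs_lt] at h2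
    exact (Real.cos_pos_of_mem_Ioo ⟨by linarith [h2.1], h2.2⟩).ne'
  have hxk : ∀ x : EuclideanSpace ℝ (Fin d), HasFDerivAt (fun x : EuclideanSpace ℝ (Fin d) => c * x k)
      (c • pr k) x := fun x => ((pr k).hasFDerivAt (x := x)).const_mul c
  set T : EuclideanSpace ℝ (Fin d) → ℝ := fun x => c * Real.tan (c * x k) with hT
  have hTd : ∀ x ∈ K, HasFDerivAt T ((c ^ 2 * (1 + Real.tan (c * x k) ^ 2)) • pr k) x := by
    intro x hx
    have h1 := ((Real.hasDerivAt_tan (hcos x hx)).comp_hasFDerivAt x (hxk x)).const_mul c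
    refine h1.congr_fderiv ?_
    ext v
    simp only [smul_apply, smul_eq_mul]
    have h3 : 1 / Real.cos (c * x k) ^ 2 = 1 + Real.tan (c * x k) ^ 2 := by
      rw [Real.tan_eq_sin_div_cos]
      have := hcos x hx
      field_simp
      rw [← Real.sin_sq_add_cos_sq (c * x k)]; ring
    rw [h3]; ring
  have hcont_tan : ContinuousOn (fun x : EuclideanSpace ℝ (Fin d) => Real.tan (c * x k)) K := by
    intro x hx
    have h1 : ContinuousAt Real.tan (c * x k) := (Real.hasDerivAt_tan (hcos x hx)).continuousAt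
    exact (ContinuousAt.comp (f := fun x : EuclideanSpace ℝ (Fin d) => c * x k) h1
      (hxk x).continuousAt).continuousWithinAt
  have hdu : Continuous (fun x => fderiv ℝ u x (eb k)) :=
    (hu.continuous_fderiv (by simp)).clm_apply continuous_const
  have hu0 : ∀ x, x ∉ K → u x = 0 := fun x hx => image_eq_zero_of_notMem_tsupport hx
  have hdu0 : ∀ x, x ∉ K → fderiv ℝ u x = 0 := by
    intro x hx
    have h1 : u =ᶠ[𝓝 x] 0 := notMem_tsupport_iff_eventuallyEq.1 hx
    rw [h1.fderiv_eq]
    simp
  have hucont : Continuous u := hu.continuous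
  -- square
  set G : EuclideanSpace ℝ (Fin d) → ℝ := fun x => u x ^ 2 with hG
  have hGd : ∀ x, HasFDerivAt G ((2 * u x) • fderiv ℝ u x) x := by
    intro x
    have := (hud x).hasFDerivAt.pow 2
    refine this.congr_fderiv ?_
    ext v; simp
  have hGsupp : tsupport G ⊆ K := by
    rw [hK]
    refine closure_mono ?_
    intro x hx
    rw [Function.mem_support] at hx ⊢
    intro h0
    apply hx; simp [hG, h0]
  -- integrability
  have i1 : Integrable (fun x => (fderiv ℝ u x (eb k)) ^ 2) :=
    integrable_of_compact_support' hKc (hdu.pow 2).continuousOn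
      (fun x hx => by simp [hdu0 x hx])
  have i2 : Integrable (fun x => T x * ((2 * u x) * fderiv ℝ u x (eb k))) := by
    refine integrable_of_compact_support' hKc ?_ (fun x hx => by simp [hdu0 x hx])
    exact (continuousOn_const.mul hcont_tan).mul
      (((continuous_const.mul hucont).mul hdu).continuousOn)
  have i3 : Integrable (fun x => T x ^ 2 * u x ^ 2) := by
    refine integrable_of_compact_support' hKc ?_ (fun x hx => by simp [hu0 x hx])
    exact ((continuousOn_const.mul hcont_tan).pow 2).mul (hucont.pow 2).continuousOn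
  have i4 : Integrable (fun x => (c ^ 2 * (1 + Real.tan (c * x k) ^ 2)) * G x) := by
    refine integrable_of_compact_support' hKc ?_ (fun x hx => by simp [hG, hu0 x hx])
    exact (continuousOn_const.mul (continuousOn_const.add (hcont_tan.pow 2))).mul
      (hucont.pow 2).continuousOn
  have i5 : Integrable (fun x => T x * G x) := by
    refine integrable_of_compact_support' hKc ?_ (fun x hx => by simp [hG, hu0 x hx])
    exact (continuousOn_const.mul hcont_tan).mul (hucont.pow 2).continuousOn
  have i6 : Integrable (fun x => c ^ 2 * u x ^ 2) :=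
    integrable_of_compact_support' hKc (continuous_const.mul (hucont.pow 2)).continuousOn
      (fun x hx => by simp [hu0 x hx])
  -- integration by parts
  have ibp : ∫ x, T x * ((2 * u x) * fderiv ℝ u x (eb k)) =
      - ∫ x, (c ^ 2 * (1 + Real.tan (c * x k) ^ 2)) * G x := by
    have := integral_bilinear_hasLineDerivAt_right_eq_neg_left_of_integrable
      (μ := (volume : Measure (EuclideanSpace ℝ (Fin d)))) (f := T)
      (f' := fun x => c ^ 2 * (1 + Real.tan (c * x k) ^ 2)) (g := G)
      (g' := fun x => (2 * u x) * fderiv ℝ u x (eb k)) (v := eb k)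
      (B := ContinuousLinearMap.mul ℝ ℝ) (by simpa using i4) (by simpa using i2) (by simpa using i5)
      (by
        intro x hx
        have h1 := (hTd x (hGsupp hx)).hasLineDerivAt (eb k)
        have h2 : ((c ^ 2 * (1 + Real.tan (c * x k) ^ 2)) • pr k) (eb k) =
            c ^ 2 * (1 + Real.tan (c * x k) ^ 2) := by
          rw [smul_apply]
          simp [pr]
        rw [h2] at h1
        exact h1)
      (by
        intro x _
        have h1 := (hGd x).hasLineDerivAt (eb k)
        have h2 : ((2 * u x) • fderiv ℝ u x) (eb k) = (2 * u x) * fderiv ℝ u x (eb k) := by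
          rw [smul_apply]; simp
        rw [h2] at h1
        exact h1)
    simpa using this
  have hsq : 0 ≤ ∫ x, ((fderiv ℝ u x (eb k)) ^ 2 + T x * ((2 * u x) * fderiv ℝ u x (eb k)) +
      T x ^ 2 * u x ^ 2) := by
    refine integral_nonneg fun x => ?_
    have : (fderiv ℝ u x (eb k)) ^ 2 + T x * ((2 * u x) * fderiv ℝ u x (eb k)) +
      T x ^ 2 * u x ^ 2 = (fderiv ℝ u x (eb k) + T x * u x) ^ 2 := by ring
    simp only [Pi.zero_apply]
    rw [this]; positivity
  have hsplit : ∫ x, ((fderiv ℝ u x (eb k)) ^ 2 + T x * ((2 * u x) * fderiv ℝ u x (eb k)) +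
      T x ^ 2 * u x ^ 2) = (∫ x, (fderiv ℝ u x (eb k)) ^ 2) +
      (∫ x, T x * ((2 * u x) * fderiv ℝ u x (eb k))) + ∫ x, T x ^ 2 * u x ^ 2 := by
    have e1 := integral_add (i1.add i2) i3
    have e2 := integral_add i1 i2
    rw [← e2]
    exact e1
  rw [hsplit, ibp] at hsq
  have hdiff : (∫ x, (c ^ 2 * (1 + Real.tan (c * x k) ^ 2)) * G x) - (∫ x, T x ^ 2 * u x ^ 2) =
      ∫ x, c ^ 2 * u x ^ 2 := by
    rw [← integral_sub i4 i3]
    refine integral_congr_ae (ae_of_all _ fun x => ?_)
    simp only [hG, hT]; ring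
  rw [← integral_const_mul]
  linarith

/-- smooth truncation of the identity from below -/
noncomputable def trunc (ε : ℝ) (y : ℝ) : ℝ :=
  ∫ s in (0 : ℝ)..y, Real.smoothTransition (s / ε - 1)

lemma trunc_cont (ε : ℝ) : Continuous (fun s : ℝ => Real.smoothTransition (s / ε - 1)) :=
  Real.smoothTransition.continuous.comp (by fun_prop)

lemma trunc_hasDerivAt (ε y : ℝ) :
    HasDerivAt (trunc ε) (Real.smoothTransition (y / ε - 1)) y :=
  ((trunc_cont ε).integral_hasStrictDerivAt 0 y).hasDerivAt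

lemma trunc_contDiff (ε : ℝ) : ContDiff ℝ ∞ (trunc ε) := by
  rw [contDiff_infty_iff_deriv]
  refine ⟨fun y => (trunc_hasDerivAt ε y).differentiableAt, ?_⟩
  have : deriv (trunc ε) = fun y => Real.smoothTransition (y / ε - 1) := by
    ext y; exact (trunc_hasDerivAt ε y).deriv
  rw [this]
  exact Real.smoothTransition.contDiff.comp (by fun_prop)

lemma trunc_zero {ε y : ℝ} (hε : 0 < ε) (hy : y ≤ ε) : trunc ε y = 0 := by
  unfold trunc
  refine intervalIntegral.integral_zero_ae ?_
  refine ae_of_all _ fun s hs => ?_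
  apply Real.smoothTransition.zero_of_nonpos
  have hsle : s ≤ ε := by
    rcases le_total 0 y with h | h
    · rw [uIoc_of_le h] at hs; exact hs.2.trans hy
    · rw [uIoc_of_ge h] at hs; exact hs.2.trans hε.le
  rw [sub_nonpos, div_le_one hε]; exact hsle

lemma trunc_le {ε y : ℝ} (hy : 0 ≤ y) : trunc ε y ≤ y := by
  unfold trunc
  have h1 : ∫ s in (0 : ℝ)..y, Real.smoothTransition (s / ε - 1) ≤ ∫ s in (0 : ℝ)..y, (1 : ℝ) :=
    intervalIntegral.integral_mono_on hy ((trunc_cont ε).intervalIntegrable _ _)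
      (continuous_const.intervalIntegrable _ _) fun _ _ => Real.smoothTransition.le_one _
  simpa using h1

lemma trunc_nonneg {ε y : ℝ} (hy : 0 ≤ y) : 0 ≤ trunc ε y :=
  intervalIntegral.integral_nonneg hy fun _ _ => Real.smoothTransition.nonneg _

lemma le_trunc {ε y : ℝ} (hε : 0 < ε) (hy : 0 ≤ y) : y - 2 * ε ≤ trunc ε y := by
  rcases le_total y (2 * ε) with h | h
  · linarith [trunc_nonneg (ε := ε) hy]
  · unfold trunc
    have h1 : ∫ s in (0 : ℝ)..y, Real.smoothTransition (s / ε - 1) =
        (∫ s in (0 : ℝ)..(2 * ε), Real.smoothTransition (s / ε - 1)) +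
        ∫ s in (2 * ε)..y, Real.smoothTransition (s / ε - 1) :=
      (intervalIntegral.integral_add_adjacent_intervals ((trunc_cont ε).intervalIntegrable _ _)
        ((trunc_cont ε).intervalIntegrable _ _)).symm
    have h2 : ∫ s in (2 * ε)..y, Real.smoothTransition (s / ε - 1) = ∫ s in (2 * ε)..y, (1 : ℝ) := by
      refine intervalIntegral.integral_congr fun s hs => ?_
      rw [uIcc_of_le h] at hs
      apply Real.smoothTransition.one_of_one_le
      rw [le_sub_iff_add_le, le_div_iff₀ hε]
      linarith [hs.1]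
    have h3 : 0 ≤ ∫ s in (0 : ℝ)..(2 * ε), Real.smoothTransition (s / ε - 1) :=
      intervalIntegral.integral_nonneg (by linarith) fun _ _ => Real.smoothTransition.nonneg _
    rw [h1, h2]
    simp
    linarith

/-- the product of cosines -/
noncomputable def cosprod (a : Fin d → ℝ) (x : EuclideanSpace ℝ (Fin d)) : ℝ :=
  ∏ k, Real.cos (Real.pi / (2 * a k) * x k)

/-- test function -/
noncomputable def testFn (a : Fin d → ℝ) (ε : ℝ) : EuclideanSpace ℝ (Fin d) → ℝ :=
  (box a).indicator (fun x => trunc ε (cosprod a x))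

lemma cosprod_contDiff (a : Fin d → ℝ) : ContDiff ℝ ∞ (cosprod a) := by
  unfold cosprod
  refine contDiff_prod fun k _ => ?_
  refine Real.contDiff_cos.comp ?_
  exact contDiff_const.mul (pr k).contDiff

lemma isOpen_box (a : Fin d → ℝ) : IsOpen (box a) := by
  unfold box
  have h : {x : EuclideanSpace ℝ (Fin d) | ∀ k, |x k| < a k} = ⋂ k, {x | |x k| < a k} := by
    ext x; simp
  rw [h]
  refine isOpen_iInter_of_finite fun k => ?_
  exact isOpen_lt (continuous_abs.comp (pr k).continuous) continuous_const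

lemma cos_pos_of_box {a : Fin d → ℝ} (ha : ∀ k, 0 < a k) {x : EuclideanSpace ℝ (Fin d)}
    (hx : x ∈ box a) (k : Fin d) : 0 < Real.cos (Real.pi / (2 * a k) * x k) := by
  have h1 : |x k| < a k := hx k
  have hc0 : 0 < Real.pi / (2 * a k) := by have := ha k; positivity
  have h2 : |Real.pi / (2 * a k) * x k| < Real.pi / 2 := by
    rw [abs_mul, abs_of_pos hc0]
    calc Real.pi / (2 * a k) * |x k| < Real.pi / (2 * a k) * a k := by gcongr
      _ = Real.pi / 2 := by have := (ha k).ne'; field_simp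
  rw [abs_lt] at h2
  exact Real.cos_pos_of_mem_Ioo ⟨by linarith [h2.1], h2.2⟩

lemma cosprod_pos {a : Fin d → ℝ} (ha : ∀ k, 0 < a k) {x : EuclideanSpace ℝ (Fin d)}
    (hx : x ∈ box a) : 0 < cosprod a x := Finset.prod_pos fun k _ => cos_pos_of_box ha hx k

lemma cosprod_le_cos {a : Fin d → ℝ} (ha : ∀ k, 0 < a k) {x : EuclideanSpace ℝ (Fin d)}
    (hx : x ∈ box a) (k : Fin d) : cosprod a x ≤ Real.cos (Real.pi / (2 * a k) * x k) := by
  unfold cosprod
  rw [← Finset.mul_prod_erase Finset.univ _ (Finset.mem_univ k)]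
  refine mul_le_of_le_one_right (cos_pos_of_box ha hx k).le ?_
  exact Finset.prod_le_one (fun i _ => (cos_pos_of_box ha hx i).le) fun _ _ => Real.cos_le_one _

lemma cosprod_le_one {a : Fin d → ℝ} (ha : ∀ k, 0 < a k) {x : EuclideanSpace ℝ (Fin d)}
    (hx : x ∈ box a) : cosprod a x ≤ 1 :=
  Finset.prod_le_one (fun i _ => (cos_pos_of_box ha hx i).le) fun _ _ => Real.cos_le_one _

lemma testFn_eventually_zero {a : Fin d → ℝ} (ha : ∀ k, 0 < a k) {ε : ℝ} (hε : 0 < ε)
    {x : EuclideanSpace ℝ (Fin d)} (hx : x ∉ box a) : testFn a ε =ᶠ[𝓝 x] 0 := by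
  have hx' : ∃ k, a k ≤ |x k| := by
    by_contra h
    push Not at h
    exact hx h
  obtain ⟨k, hk⟩ := hx'
  rcases hk.lt_or_eq with hlt | heq
  · have : ∀ᶠ y in 𝓝 x, a k < |y k| :=
      (continuous_abs.comp (pr k).continuous).continuousAt.eventually (lt_mem_nhds hlt)
    filter_upwards [this] with y hy
    have hyb : y ∉ box a := fun h => absurd (h k) (not_lt.2 hy.le)
    simp [testFn, hyb]
  · have hcos0 : Real.cos (Real.pi / (2 * a k) * x k) = 0 := by
      rw [← Real.cos_abs, abs_mul, abs_of_pos (by have := ha k; positivity), ← heq]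
      have h1 : Real.pi / (2 * a k) * a k = Real.pi / 2 := by
        have := (ha k).ne'; field_simp
      rw [h1, Real.cos_pi_div_two]
    have hcont : Continuous (fun y : EuclideanSpace ℝ (Fin d) =>
        Real.cos (Real.pi / (2 * a k) * y k)) :=
      Real.continuous_cos.comp (continuous_const.mul (pr k).continuous)
    have : ∀ᶠ y in 𝓝 x, Real.cos (Real.pi / (2 * a k) * y k) < ε := by
      refine hcont.continuousAt.eventually (gt_mem_nhds ?_)
      change Real.cos (Real.pi / (2 * a k) * x k) < ε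
      rw [hcos0]; exact hε
    filter_upwards [this] with y hy
    by_cases hyb : y ∈ box a
    · simp only [testFn, indicator_of_mem hyb, Pi.zero_apply]
      exact trunc_zero hε ((cosprod_le_cos ha hyb k).trans hy.le)
    · simp [testFn, hyb]

lemma testFn_eventually_eq {a : Fin d → ℝ} (ε : ℝ) {x : EuclideanSpace ℝ (Fin d)}
    (hx : x ∈ box a) : testFn a ε =ᶠ[𝓝 x] fun x => trunc ε (cosprod a x) := by
  filter_upwards [(isOpen_box a).mem_nhds hx] with y hy
  simp [testFn, hy]

lemma testFn_contDiff {a : Fin d → ℝ} (ha : ∀ k, 0 < a k) {ε : ℝ} (hε : 0 < ε) :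
    ContDiff ℝ ∞ (testFn a ε) := by
  rw [contDiff_iff_contDiffAt]
  intro x
  by_cases hx : x ∈ box a
  · refine ContDiffAt.congr_of_eventuallyEq ?_ (testFn_eventually_eq ε hx)
    exact ((trunc_contDiff ε).comp (cosprod_contDiff a)).contDiffAt
  · exact contDiffAt_const.congr_of_eventuallyEq (testFn_eventually_zero ha hε hx)

lemma testFn_tsupport {a : Fin d → ℝ} (ha : ∀ k, 0 < a k) {ε : ℝ} (hε : 0 < ε) :
    tsupport (testFn a ε) ⊆ box a := by
  intro x hx
  by_contra h
  exact (notMem_tsupport_iff_eventuallyEq.2 (testFn_eventually_zero ha hε h)) hx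

lemma box_bounded (a : Fin d → ℝ) : Bornology.IsBounded (box a) := by
  rw [isBounded_iff_forall_norm_le]
  refine ⟨√(∑ k, (a k) ^ 2), fun x hx => ?_⟩
  rw [EuclideanSpace.norm_eq]
  refine Real.sqrt_le_sqrt (Finset.sum_le_sum fun k _ => ?_)
  have := hx k
  rw [Real.norm_eq_abs]
  have h0 : 0 ≤ |x k| := abs_nonneg _
  nlinarith

lemma testFn_compact {a : Fin d → ℝ} (ha : ∀ k, 0 < a k) {ε : ℝ} (hε : 0 < ε) :
    HasCompactSupport (testFn a ε) :=
  Metric.isCompact_of_isClosed_isBounded (isClosed_tsupport _)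
    ((box_bounded a).subset (testFn_tsupport ha hε))


/-- derivative of the product of cosines in direction `k` -/
noncomputable def dcos (a : Fin d → ℝ) (k : Fin d) (x : EuclideanSpace ℝ (Fin d)) : ℝ :=
  -(Real.pi / (2 * a k)) * Real.sin (Real.pi / (2 * a k) * x k) *
    ∏ j ∈ Finset.univ.erase k, Real.cos (Real.pi / (2 * a j) * x j)

lemma line_k (x : EuclideanSpace ℝ (Fin d)) (k : Fin d) (t : ℝ) : (x + t • eb k) k = x k + t := by
  simp [eb]

lemma line_ne (x : EuclideanSpace ℝ (Fin d)) {j k : Fin d} (h : j ≠ k) (t : ℝ) :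
    (x + t • eb k) j = x j := by
  simp [eb, h]

lemma prod_line (a : Fin d → ℝ) (x : EuclideanSpace ℝ (Fin d)) (k : Fin d) (t : ℝ) :
    ∏ j ∈ Finset.univ.erase k, Real.cos (Real.pi / (2 * a j) * (x + t • eb k) j) =
    ∏ j ∈ Finset.univ.erase k, Real.cos (Real.pi / (2 * a j) * x j) := by
  refine Finset.prod_congr rfl fun j hj => ?_
  rw [line_ne x (Finset.ne_of_mem_erase hj)]

lemma cosprod_lineDeriv (a : Fin d → ℝ) (k : Fin d) (x : EuclideanSpace ℝ (Fin d)) :
    HasLineDerivAt ℝ (cosprod a) (dcos a k x) x (eb k) := by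
  unfold HasLineDerivAt
  set c := Real.pi / (2 * a k) with hc
  set Q := ∏ j ∈ Finset.univ.erase k, Real.cos (Real.pi / (2 * a j) * x j) with hQ
  have h1 : (fun t : ℝ => cosprod a (x + t • eb k)) = fun t => Real.cos (c * (x k + t)) * Q := by
    ext t
    unfold cosprod
    rw [← Finset.mul_prod_erase Finset.univ _ (Finset.mem_univ k), prod_line, line_k]
  rw [h1]
  have h2 : HasDerivAt (fun t : ℝ => c * (x k + t)) c 0 := by
    simpa using ((hasDerivAt_id (0 : ℝ)).const_add (x k)).const_mul c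
  have h3 := (h2.cos).mul_const Q
  refine h3.congr_deriv ?_
  rw [add_zero]
  unfold dcos
  ring

lemma dcos_lineDeriv (a : Fin d → ℝ) (k : Fin d) (x : EuclideanSpace ℝ (Fin d)) :
    HasLineDerivAt ℝ (dcos a k) (-(Real.pi / (2 * a k)) ^ 2 * cosprod a x) x (eb k) := by
  unfold HasLineDerivAt
  set c := Real.pi / (2 * a k) with hc
  set Q := ∏ j ∈ Finset.univ.erase k, Real.cos (Real.pi / (2 * a j) * x j) with hQ
  have h1 : (fun t : ℝ => dcos a k (x + t • eb k)) = fun t => -c * Real.sin (c * (x k + t)) * Q := by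
    ext t
    unfold dcos
    rw [prod_line, line_k]
  rw [h1]
  have h2 : HasDerivAt (fun t : ℝ => c * (x k + t)) c 0 := by
    simpa using ((hasDerivAt_id (0 : ℝ)).const_add (x k)).const_mul c
  have h3 := ((h2.sin).const_mul (-c)).mul_const Q
  refine h3.congr_deriv ?_
  rw [add_zero]
  unfold cosprod
  rw [← Finset.mul_prod_erase Finset.univ _ (Finset.mem_univ k)]
  ring

lemma dcos_continuous (a : Fin d → ℝ) (k : Fin d) : Continuous (dcos a k) := by
  unfold dcos
  have h : ∀ j : Fin d, Continuous (fun x : EuclideanSpace ℝ (Fin d) => x j) :=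
    fun j => (pr j).continuous
  have h1 := h k
  refine Continuous.mul ?_ ?_
  · fun_prop
  · refine continuous_finsetProd _ fun j _ => ?_
    have := h j
    fun_prop

lemma testFn_fderiv {a : Fin d → ℝ} (ε : ℝ) (k : Fin d)
    {x : EuclideanSpace ℝ (Fin d)} (hx : x ∈ box a) :
    fderiv ℝ (testFn a ε) x (eb k) =
      Real.smoothTransition (cosprod a x / ε - 1) * dcos a k x := by
  rw [(testFn_eventually_eq ε hx).fderiv_eq]
  have hw : DifferentiableAt ℝ (cosprod a) x :=
    ((cosprod_contDiff a).differentiable (by simp)) x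
  have h1 : HasFDerivAt (fun x => trunc ε (cosprod a x))
      (Real.smoothTransition (cosprod a x / ε - 1) • fderiv ℝ (cosprod a) x) x :=
    (trunc_hasDerivAt ε (cosprod a x)).comp_hasFDerivAt x hw.hasFDerivAt
  rw [h1.fderiv, smul_apply, smul_eq_mul]
  congr 1
  have h2 := (hw.hasFDerivAt.hasLineDerivAt (eb k)).lineDeriv
  have h3 := (cosprod_lineDeriv a k x).lineDeriv
  rw [← h2, h3]

lemma testFn_fderiv_zero {a : Fin d → ℝ} (ha : ∀ k, 0 < a k) {ε : ℝ} (hε : 0 < ε)
    {x : EuclideanSpace ℝ (Fin d)} (hx : x ∉ box a) :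
    fderiv ℝ (testFn a ε) x = 0 := by
  rw [(testFn_eventually_zero ha hε hx).fderiv_eq]
  simp

lemma testFn_energy {a : Fin d → ℝ} (ha : ∀ k, 0 < a k) {ε : ℝ} (hε : 0 < ε) (k : Fin d) :
    Integrable (fun x => (fderiv ℝ (testFn a ε) x (eb k)) ^ 2) ∧
    ∫ x, (fderiv ℝ (testFn a ε) x (eb k)) ^ 2 ≤
      (Real.pi / (2 * a k)) ^ 2 * ∫ x, cosprod a x * testFn a ε x := by
  set u := testFn a ε with hu
  have hucd : ContDiff ℝ ∞ u := testFn_contDiff ha hε
  have hKc : IsCompact (tsupport u) := testFn_compact ha hε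
  have hdu : Continuous (fun x => fderiv ℝ u x (eb k)) :=
    (hucd.continuous_fderiv (by simp)).clm_apply continuous_const
  have hu0 : ∀ x, x ∉ tsupport u → u x = 0 := fun x hx => image_eq_zero_of_notMem_tsupport hx
  have hdu0 : ∀ x, x ∉ tsupport u → fderiv ℝ u x = 0 := by
    intro x hx
    have h1 : u =ᶠ[𝓝 x] 0 := notMem_tsupport_iff_eventuallyEq.1 hx
    rw [h1.fderiv_eq]
    simp
  have hwc : Continuous (cosprod a) := (cosprod_contDiff a).continuous
  have hdc := dcos_continuous a k
  have i1 : Integrable (fun x => (fderiv ℝ u x (eb k)) ^ 2) :=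
    integrable_of_compact_support' hKc (hdu.pow 2).continuousOn (fun x hx => by simp [hdu0 x hx])
  have i2 : Integrable (fun x => dcos a k x * fderiv ℝ u x (eb k)) :=
    integrable_of_compact_support' hKc (hdc.mul hdu).continuousOn (fun x hx => by simp [hdu0 x hx])
  have i3 : Integrable (fun x => (-(Real.pi / (2 * a k)) ^ 2 * cosprod a x) * u x) :=
    integrable_of_compact_support' hKc
      ((continuous_const.mul hwc).mul hucd.continuous).continuousOn
      (fun x hx => by simp [hu0 x hx])
  have i4 : Integrable (fun x => dcos a k x * u x) :=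
    integrable_of_compact_support' hKc (hdc.mul hucd.continuous).continuousOn
      (fun x hx => by simp [hu0 x hx])
  refine ⟨i1, ?_⟩
  have ibp : ∫ x, dcos a k x * fderiv ℝ u x (eb k) =
      - ∫ x, (-(Real.pi / (2 * a k)) ^ 2 * cosprod a x) * u x := by
    have := integral_bilinear_hasLineDerivAt_right_eq_neg_left_of_integrable
      (μ := (volume : Measure (EuclideanSpace ℝ (Fin d)))) (f := dcos a k)
      (f' := fun x => -(Real.pi / (2 * a k)) ^ 2 * cosprod a x) (g := u)
      (g' := fun x => fderiv ℝ u x (eb k)) (v := eb k)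
      (B := ContinuousLinearMap.mul ℝ ℝ) (by simpa using i3) (by simpa using i2) (by simpa using i4)
      (fun x _ => dcos_lineDeriv a k x)
      (fun x _ => ((hucd.differentiable (by simp)) x).hasFDerivAt.hasLineDerivAt (eb k))
    simpa using this
  calc ∫ x, (fderiv ℝ u x (eb k)) ^ 2 ≤ ∫ x, dcos a k x * fderiv ℝ u x (eb k) := by
        refine integral_mono i1 i2 fun x => ?_
        simp only
        by_cases hx : x ∈ box a
        · rw [hu, testFn_fderiv ε k hx]
          have h1 := Real.smoothTransition.nonneg (cosprod a x / ε - 1)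
          have h2 := Real.smoothTransition.le_one (cosprod a x / ε - 1)
          set θ := Real.smoothTransition (cosprod a x / ε - 1)
          have h3 : 0 ≤ θ * (1 - θ) * (dcos a k x) ^ 2 := by
            have : 0 ≤ 1 - θ := by linarith
            positivity
          nlinarith
        · rw [hu, testFn_fderiv_zero ha hε hx]; simp
    _ = - ∫ x, (-(Real.pi / (2 * a k)) ^ 2 * cosprod a x) * u x := ibp
    _ = _ := by
        rw [← integral_neg, ← integral_const_mul]
        refine integral_congr_ae (ae_of_all _ fun x => ?_)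
        simp only
        ring

lemma volume_box_lt_top (a : Fin d → ℝ) : volume (box a) < ⊤ :=
  (box_bounded a).measure_lt_top

/-- Upper bound for the eigenvalue -/
lemma eigen_le {a : Fin d → ℝ} (ha : ∀ k, 0 < a k) :
    ∃ C : ℝ, 0 ≤ C ∧ ∀ ε : ℝ, 0 < ε → ε ≤ 1 / 8 →
      testFn a ε ≠ 0 ∧
      (∫ x, ‖fderiv ℝ (testFn a ε) x‖ ^ 2) / ∫ x, testFn a ε x ^ 2 ≤
        (∑ k, (Real.pi / (2 * a k)) ^ 2) * (1 + C * ε) := by
  set V := volume.real (box a) with hV
  set S : Set (EuclideanSpace ℝ (Fin d)) := box a ∩ {x | 1 / 2 < cosprod a x} with hS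
  have hSo : IsOpen S := (isOpen_box a).inter
    (isOpen_lt continuous_const (cosprod_contDiff a).continuous)
  have hS0 : (0 : EuclideanSpace ℝ (Fin d)) ∈ S := by
    refine ⟨fun k => ?_, ?_⟩
    · simpa using ha k
    · change 1 / 2 < cosprod a 0
      unfold cosprod
      simp
      norm_num
  have hSpos : 0 < volume S := hSo.measure_pos volume ⟨0, hS0⟩
  have hSfin : volume S < ⊤ := lt_of_le_of_lt (measure_mono inter_subset_left) (volume_box_lt_top a)
  set m := volume.real S with hm
  have hm0 : 0 < m := ENNReal.toReal_pos hSpos.ne' hSfin.ne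
  have hV0 : 0 ≤ V := measureReal_nonneg
  refine ⟨32 * V / m, by positivity, fun ε hε hε8 => ?_⟩
  set u := testFn a ε with hu
  have hucd : ContDiff ℝ ∞ u := testFn_contDiff ha hε
  have hKc : IsCompact (tsupport u) := testFn_compact ha hε
  have hu0 : ∀ x, x ∉ tsupport u → u x = 0 := fun x hx => image_eq_zero_of_notMem_tsupport hx
  have hwc : Continuous (cosprod a) := (cosprod_contDiff a).continuous
  have i1 : Integrable (fun x => u x ^ 2) :=
    integrable_of_compact_support' hKc (hucd.continuous.pow 2).continuousOn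
      (fun x hx => by simp [hu0 x hx])
  have i2 : Integrable (fun x => cosprod a x * u x) :=
    integrable_of_compact_support' hKc (hwc.mul hucd.continuous).continuousOn
      (fun x hx => by simp [hu0 x hx])
  have hubox : ∀ x ∈ box a, u x = trunc ε (cosprod a x) := fun x hx => by
    simp [hu, testFn, hx]
  have hunbox : ∀ x, x ∉ box a → u x = 0 := fun x hx => by
    simp [hu, testFn, hx]
  -- lower bound of ∫ u²
  have hlow : m / 16 ≤ ∫ x, u x ^ 2 := by
    have h1 : ∫ x, S.indicator (fun _ => (1 / 16 : ℝ)) x = m / 16 := by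
      rw [integral_indicator_const _ hSo.measurableSet, smul_eq_mul, hm]; ring
    rw [← h1]
    refine integral_mono ((integrable_indicator_iff hSo.measurableSet).2
      (integrableOn_const hSfin.ne)) i1 fun x => ?_
    by_cases hx : x ∈ S
    · simp only [indicator_of_mem hx]
      have h2 : 1 / 2 < cosprod a x := hx.2
      have h3 := le_trunc hε (cosprod_pos ha hx.1).le
      rw [hubox x hx.1]
      nlinarith
    · simp only [indicator_of_notMem hx]
      positivity
  have hint_pos : 0 < ∫ x, u x ^ 2 := lt_of_lt_of_le (by positivity) hlow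
  have hne : u ≠ 0 := by
    intro h0
    rw [h0] at hint_pos
    simp at hint_pos
  -- upper bound of ∫ w u
  have hup : ∫ x, cosprod a x * u x ≤ (∫ x, u x ^ 2) + 2 * ε * V := by
    have h1 : ∫ x, (box a).indicator (fun _ => 2 * ε) x = 2 * ε * V := by
      rw [integral_indicator_const _ (isOpen_box a).measurableSet, smul_eq_mul, hV]; ring
    rw [← h1]
    have i3 : Integrable ((box a).indicator (fun _ => 2 * ε)) :=
      (integrable_indicator_iff (isOpen_box a).measurableSet).2
      (integrableOn_const (volume_box_lt_top a).ne)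
    rw [← integral_add i1 i3]
    refine integral_mono i2 (i1.add i3) fun x => ?_
    by_cases hx : x ∈ box a
    · simp only [indicator_of_mem hx]
      rw [hubox x hx]
      have hw0 := (cosprod_pos ha hx).le
      have hw1 := cosprod_le_one ha hx
      have h2 := le_trunc hε hw0
      have h3 := trunc_le (ε := ε) hw0
      have h4 := trunc_nonneg (ε := ε) hw0
      set w := cosprod a x
      set v := trunc ε w
      have h5 : w * v ≤ (v + 2 * ε) * v := mul_le_mul_of_nonneg_right (by linarith) h4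
      have h6 : 2 * ε * v ≤ 2 * ε * 1 := mul_le_mul_of_nonneg_left (h3.trans hw1) (by positivity)
      nlinarith
    · simp only [indicator_of_notMem hx]
      rw [hunbox x hx]; simp
  -- energy
  have hen : ∫ x, ‖fderiv ℝ u x‖ ^ 2 ≤
      (∑ k, (Real.pi / (2 * a k)) ^ 2) * ∫ x, cosprod a x * u x := by
    simp_rw [norm_fderiv_sq]
    rw [integral_finsetSum _ fun k _ => (testFn_energy ha hε k).1, Finset.sum_mul]
    exact Finset.sum_le_sum fun k _ => (testFn_energy ha hε k).2
  refine ⟨hne, ?_⟩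
  rw [div_le_iff₀ hint_pos]
  set L := ∑ k, (Real.pi / (2 * a k)) ^ 2 with hL
  have hL0 : 0 ≤ L := Finset.sum_nonneg fun k _ => sq_nonneg _
  set I := ∫ x, u x ^ 2 with hI
  have h1 : 2 * ε * V ≤ 32 * V / m * ε * I := by
    have h2 : 32 * V / m * ε * (m / 16) ≤ 32 * V / m * ε * I :=
      mul_le_mul_of_nonneg_left hlow (by positivity)
    have h3 : 32 * V / m * ε * (m / 16) = 2 * ε * V := by field_simp; ring
    linarith
  calc ∫ x, ‖fderiv ℝ u x‖ ^ 2 ≤ L * ∫ x, cosprod a x * u x := hen
    _ ≤ L * (I + 32 * V / m * ε * I) := mul_le_mul_of_nonneg_left (hup.trans (by linarith)) hL0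
    _ = L * (1 + 32 * V / m * ε) * I := by ring

/-- The first Dirichlet eigenvalue of a box. -/
theorem dirichletEigenvalue_box {a : Fin d → ℝ} (ha : ∀ k, 0 < a k) :
    dirichletEigenvalue (box a) = ∑ k, (Real.pi / (2 * a k)) ^ 2 := by
  set L := ∑ k, (Real.pi / (2 * a k)) ^ 2 with hL
  have hL0 : 0 ≤ L := Finset.sum_nonneg fun k _ => sq_nonneg _
  obtain ⟨C, hC, hCε⟩ := eigen_le ha
  unfold dirichletEigenvalue
  set R : Set ℝ := {r : ℝ | ∃ u : EuclideanSpace ℝ (Fin d) → ℝ, ContDiff ℝ ∞ u ∧
    HasCompactSupport u ∧ tsupport u ⊆ box a ∧ u ≠ 0 ∧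
    r = (∫ x, ‖fderiv ℝ u x‖ ^ 2) / ∫ x, u x ^ 2} with hR
  have hmem : ∀ ε : ℝ, 0 < ε → ε ≤ 1 / 8 →
      (∫ x, ‖fderiv ℝ (testFn a ε) x‖ ^ 2) / ∫ x, testFn a ε x ^ 2 ∈ R := fun ε h1 h2 =>
    ⟨testFn a ε, testFn_contDiff ha h1, testFn_compact ha h1, testFn_tsupport ha h1,
      (hCε ε h1 h2).1, rfl⟩
  have hlb : ∀ r ∈ R, L ≤ r := by
    rintro r ⟨u, hu, hc, hs, hne, rfl⟩
    have hpos : 0 < ∫ x, u x ^ 2 := by
      obtain ⟨x₀, hx₀⟩ : ∃ x, u x ≠ 0 := by
        by_contra h
        push Not at h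
        exact hne (funext h)
      have hcont : Continuous (fun x => u x ^ 2) := hu.continuous.pow 2
      refine hcont.integral_pos_of_hasCompactSupport_nonneg_nonzero ?_ ?_ (x := x₀) ?_
      · refine hc.mono' ?_
        intro x hx
        apply subset_closure
        rw [Function.mem_support] at hx ⊢
        intro h0; apply hx; simp [h0]
      · intro x; positivity
      · exact pow_ne_zero 2 hx₀
    rw [le_div_iff₀ hpos]
    simp_rw [norm_fderiv_sq]
    have hint : ∀ k : Fin d, Integrable (fun x => (fderiv ℝ u x (eb k)) ^ 2) := by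
      intro k
      have hdu : Continuous (fun x => fderiv ℝ u x (eb k)) :=
        (hu.continuous_fderiv (by simp)).clm_apply continuous_const
      refine integrable_of_compact_support' hc (hdu.pow 2).continuousOn fun x hx => ?_
      have h1 : u =ᶠ[𝓝 x] 0 := notMem_tsupport_iff_eventuallyEq.1 hx
      rw [h1.fderiv_eq]
      simp
    rw [integral_finsetSum _ fun k _ => hint k, hL, Finset.sum_mul]
    exact Finset.sum_le_sum fun k _ => one_dim_bound ha hu hc hs k
  refine le_antisymm ?_ (le_csInf ⟨_, hmem (1 / 8) (by norm_num) le_rfl⟩ hlb)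
  refine le_of_forall_pos_le_add fun η hη => ?_
  -- choose ε
  set ε := min (1 / 8) (η / (L * C + 1)) with hε
  have hLC : 0 < L * C + 1 := by positivity
  have hε0 : 0 < ε := lt_min (by norm_num) (by positivity)
  have hε8 : ε ≤ 1 / 8 := min_le_left _ _
  have h1 := (hCε ε hε0 hε8).2
  have h2 : sInf R ≤ (∫ x, ‖fderiv ℝ (testFn a ε) x‖ ^ 2) / ∫ x, testFn a ε x ^ 2 :=
    csInf_le ⟨L, fun r hr => hlb r hr⟩ (hmem ε hε0 hε8)
  have h3 : L * C * ε ≤ η := by
    have h4 : ε ≤ η / (L * C + 1) := min_le_right _ _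
    calc L * C * ε ≤ (L * C + 1) * ε := by nlinarith
      _ ≤ (L * C + 1) * (η / (L * C + 1)) := mul_le_mul_of_nonneg_left h4 hLC.le
      _ = η := by field_simp
  calc sInf R ≤ _ := h2
    _ ≤ L * (1 + C * ε) := h1
    _ = L + L * C * ε := by ring
    _ ≤ L + η := by linarith

end Pool.Agent.Results.MP_1e851b_pr
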