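import Pool.Agent.Lib_MP_1e851b_pr.Survival
import Pool.Agent.Lib_MP_1e851b_pr.Analysis
import Pool.Agent.Lib_MP_1e851b_pr.Eigen

/-!
Assembly: law of the exit time from a box, layer cake formula, normalised moments.
-/

open MeasureTheory ProbabilityTheory Set Filter
open scoped ENNReal NNReal Topology

namespace Pool.Agent.Results.MP_1e851b_pr

open Pool.Agent.LibBoxExit

variable {d : ℕ} {Ω : Type*} {mΩ : MeasurableSpace Ω} {P : Measure Ω}

/-- survival function of the coordinate `k` in `(-1,1)` -/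
noncomputable def sf (P : Measure Ω) (B : ℝ≥0 → Ω → ℝ) (t : ℝ≥0) : ℝ :=
  P.real {ω | ∀ q ≤ t, |B q ω| < 1}

lemma sf_survFn (B : ℝ≥0 → Ω → ℝ) (hB : IsBrownianReal B P) : SurvFn (sf P B) := by
  have : IsProbabilityMeasure P := hB.isGaussianProcess.isProbabilityMeasure
  exact
  { nonneg := fun _ => measureReal_nonneg
    le_one := fun _ => measureReal_le_one
    anti := open_antitone 1 B
    zero := open_zero 1 one_pos B hB
    four := fun r t s => four_point_open 1 B hB r t s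
    small := fun t ht => one_sub_open_le B hB t ht
    one_lt := open_one_lt B hB }

/-- survival of one coordinate in `(-b, b)` -/
lemma coord_surv (B B' : ℝ≥0 → Ω → ℝ) (hB : IsBrownianReal B P) (hB' : IsBrownianReal B' P)
    (b : ℝ) (hb : 0 < b) (t : ℝ≥0) :
    P.real {ω | ∀ q ≤ t, |B q ω| < b} = sf P B' (t / b.toNNReal ^ 2) := by
  have h := open_scaling b.toNNReal (by simpa using hb) B hB B' hB' t
  rw [Real.coe_toNNReal b hb.le] at h
  exact h

/-- path-space event for staying in `(-b,b)` up to time `t`, using a countable set of times -/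
def pathEvent (D : Set ℝ≥0) (b : ℝ) : Set (ℝ≥0 → ℝ) :=
  ⋃ n : ℕ, ⋂ q ∈ D, {w | |w q| ≤ b - 1 / ((n : ℝ) + 1)}

lemma measurableSet_pathEvent {D : Set ℝ≥0} (hD : D.Countable) (b : ℝ) :
    MeasurableSet (pathEvent D b) := by
  refine MeasurableSet.iUnion fun n => MeasurableSet.biInter hD fun q _ => ?_
  exact measurableSet_le (by fun_prop) measurable_const

lemma mem_pathEvent_iff {D : Set ℝ≥0} {t : ℝ≥0} (hDt : ∀ q ∈ D, q ≤ t)
    (hDd : ∀ q ≤ t, q ∈ closure D) {b : ℝ} {w : ℝ≥0 → ℝ} (hw : Continuous w) :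
    w ∈ pathEvent D b ↔ ∀ q ≤ t, |w q| < b := by
  unfold pathEvent
  simp only [mem_iUnion, mem_iInter]
  constructor
  · rintro ⟨n, hn⟩ q hq
    have hcl : IsClosed {q : ℝ≥0 | |w q| ≤ b - 1 / ((n : ℝ) + 1)} :=
      isClosed_le (continuous_abs.comp hw) continuous_const
    have h1 : q ∈ {q : ℝ≥0 | |w q| ≤ b - 1 / ((n : ℝ) + 1)} :=
      closure_minimal (fun q hq => hn q hq) hcl (hDd q hq)
    have h2 : |w q| ≤ b - 1 / ((n : ℝ) + 1) := h1
    have h3 : (0 : ℝ) < 1 / ((n : ℝ) + 1) := by positivity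
    linarith
  · intro h
    have hcomp : IsCompact (Set.Icc (0 : ℝ≥0) t) := isCompact_Icc
    obtain ⟨q₀, hq₀, hmax⟩ := hcomp.exists_isMaxOn (nonempty_Icc.2 zero_le)
      (continuous_abs.comp hw).continuousOn
    have h1 : |w q₀| < b := h q₀ hq₀.2
    obtain ⟨n, hn⟩ := exists_nat_one_div_lt (sub_pos.2 h1)
    refine ⟨n, fun q hq => ?_⟩
    have h2 : |w q| ≤ |w q₀| := hmax (Set.mem_Icc.2 ⟨zero_le, hDt q hq⟩)
    change |w q| ≤ b - 1 / ((n : ℝ) + 1)
    linarith

lemma exists_countable_times (t : ℝ≥0) : ∃ D : Set ℝ≥0, D.Countable ∧ (∀ q ∈ D, q ≤ t) ∧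
    ∀ q ≤ t, q ∈ closure D := by
  obtain ⟨D, hDc, hDd⟩ := TopologicalSpace.exists_countable_dense (Set.Iic t)
  refine ⟨Subtype.val '' D, hDc.image _, ?_, ?_⟩
  · rintro _ ⟨q, _, rfl⟩; exact q.2
  · intro q hq
    have h1 : (⟨q, hq⟩ : Set.Iic t) ∈ closure D := hDd _
    exact image_closure_subset_closure_image continuous_subtype_val ⟨_, h1, rfl⟩

/-- Probability that all coordinates survive up to time `t`. -/
lemma prob_stay (W : ℝ≥0 → Ω → EuclideanSpace ℝ (Fin d)) (hW : IsStandardBM W P)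
    (k₀ : Fin d) (b : Fin d → ℝ) (hb : ∀ k, 0 < b k) (t : ℝ≥0) :
    P {ω | ∀ q ≤ t, W q ω ∈ box b} =
      ENNReal.ofReal (∏ k, sf P (fun t ω => W t ω k₀) (t / (b k).toNNReal ^ 2)) := by
  have : IsProbabilityMeasure P := (hW.coord k₀).isGaussianProcess.isProbabilityMeasure
  obtain ⟨D, hDc, hDt, hDd⟩ := exists_countable_times t
  have hcont : ∀ᵐ ω ∂P, ∀ k, Continuous (fun t => W t ω k) :=
    ae_all_iff.2 fun k => (hW.coord k).cont
  -- rewrite the event
  have h1 : ({ω | ∀ q ≤ t, W q ω ∈ box b} : Set Ω) =ᵐ[P]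
      (⋂ k ∈ (Finset.univ : Finset (Fin d)),
        (fun (ω : Ω) (t : ℝ≥0) => W t ω k) ⁻¹' (pathEvent D (b k)) : Set Ω) := by
    filter_upwards [hcont] with ω hω
    refine propext ?_
    change (∀ q ≤ t, W q ω ∈ box b) ↔ ω ∈ (⋂ k ∈ (Finset.univ : Finset (Fin d)),
        (fun (ω : Ω) (t : ℝ≥0) => W t ω k) ⁻¹' (pathEvent D (b k)))
    simp only [Finset.mem_univ, iInter_true, mem_iInter, mem_preimage]
    constructor
    · intro h k
      rw [mem_pathEvent_iff hDt hDd (hω k)]
      exact fun q hq => h q hq k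
    · intro h q hq k
      exact (mem_pathEvent_iff hDt hDd (hω k)).1 (h k) q hq
  rw [measure_congr h1, hW.indep.measure_inter_preimage_eq_mul Finset.univ
    (fun k _ => measurableSet_pathEvent hDc (b k))]
  rw [ENNReal.ofReal_prod_of_nonneg (fun k _ => by unfold sf; exact measureReal_nonneg)]
  refine Finset.prod_congr rfl fun k _ => ?_
  rw [← coord_surv (fun t ω => W t ω k) (fun t ω => W t ω k₀) (hW.coord k) (hW.coord k₀) (b k) (hb k),
    ofReal_measureReal]
  refine measure_congr ?_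
  filter_upwards [hcont] with ω hω
  exact propext (mem_pathEvent_iff hDt hDd (hω k))

/-- For a continuous path, `t < τ_D` iff the path stays in the open set `D` up to time `t`. -/
lemma lt_exitTime_iff (W : ℝ≥0 → Ω → EuclideanSpace ℝ (Fin d))
    (b : Fin d → ℝ) (ω : Ω) (hω : ∀ k, Continuous (fun t => W t ω k)) (t : ℝ≥0) :
    (t : ℝ≥0∞) < exitTime W (box b) ω ↔ ∀ q ≤ t, W q ω ∈ box b := by
  unfold exitTime
  constructor
  · intro h q hq
    by_contra hcon
    have h1 : (⨅ (t : ℝ≥0) (_ : W t ω ∉ box b), (t : ℝ≥0∞)) ≤ q := iInf₂_le q hcon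
    have h2 : (q : ℝ≥0∞) ≤ t := by exact_mod_cast hq
    exact absurd (h1.trans h2) (not_le.2 h)
  · intro h
    -- the coordinates are continuous, so the path stays a bit longer
    have h1 : ∀ k, ∀ᶠ q in 𝓝 t, |W q ω k| < b k := fun k =>
      (continuous_abs.comp (hω k)).continuousAt.eventually (gt_mem_nhds (h t le_rfl k))
    have h2 : ∀ᶠ q in 𝓝 t, W q ω ∈ box b := by
      filter_upwards [eventually_all.2 h1] with q hq using hq
    obtain ⟨ε, hε, hball⟩ := Metric.eventually_nhds_iff.1 h2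
    set s : ℝ≥0 := t + (ε / 2).toNNReal with hs
    have hts : t < s := by
      rw [hs]; exact lt_add_of_pos_right t (Real.toNNReal_pos.2 (by positivity))
    refine lt_of_lt_of_le (ENNReal.coe_lt_coe.2 hts) (le_iInf₂ fun q hq => ?_)
    rw [ENNReal.coe_le_coe]
    by_contra hcon
    push Not at hcon
    apply hq
    by_cases hqt : q ≤ t
    · exact h q hqt
    · refine hball ?_
      rw [NNReal.dist_eq, abs_of_pos (by
        have : (t : ℝ) < q := by exact_mod_cast not_le.1 hqt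
        linarith)]
      have : (q : ℝ) < s := by exact_mod_cast hcon
      rw [hs, NNReal.coe_add, Real.coe_toNNReal _ (by positivity)] at this
      linarith

lemma prob_lt_exitTime (W : ℝ≥0 → Ω → EuclideanSpace ℝ (Fin d)) (hW : IsStandardBM W P)
    (k₀ : Fin d) (b : Fin d → ℝ) (hb : ∀ k, 0 < b k) (t : ℝ≥0) :
    P {ω | (t : ℝ≥0∞) < exitTime W (box b) ω} =
      ENNReal.ofReal (∏ k, sf P (fun t ω => W t ω k₀) (t / (b k).toNNReal ^ 2)) := by
  rw [← prob_stay W hW k₀ b hb t]
  refine measure_congr ?_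
  have hcont : ∀ᵐ ω ∂P, ∀ k, Continuous (fun t => W t ω k) :=
    ae_all_iff.2 fun k => (hW.coord k).cont
  filter_upwards [hcont] with ω hω
  exact propext (lt_exitTime_iff W b ω hω t)

lemma aemeasurable_exitTime (W : ℝ≥0 → Ω → EuclideanSpace ℝ (Fin d)) (hW : IsStandardBM W P)
    (b : Fin d → ℝ) : AEMeasurable (exitTime W (box b)) P := by
  refine NullMeasurable.aemeasurable ?_
  have hcont : ∀ᵐ ω ∂P, ∀ k, Continuous (fun t => W t ω k) :=
    ae_all_iff.2 fun k => (hW.coord k).cont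
  have key : ∀ c : ℝ≥0∞, NullMeasurableSet ((exitTime W (box b)) ⁻¹' (Ioi c)) P := by
    intro c
    induction c with
    | top => simp
    | coe t =>
      have h1 : NullMeasurableSet {ω | ∀ k, ∀ q ≤ t, |W q ω k| < b k} P := by
        have : {ω | ∀ k, ∀ q ≤ t, |W q ω k| < b k} = ⋂ k, {ω | ∀ q ≤ t, |W q ω k| < b k} := by
          ext ω; simp
        rw [this]
        exact NullMeasurableSet.iInter fun k =>
          nullMeas_open (b k) (fun t ω => W t ω k) (hW.coord k) t
      refine h1.congr ?_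
      filter_upwards [hcont] with ω hω
      refine propext ?_
      change (∀ k, ∀ q ≤ t, |W q ω k| < b k) ↔ (t : ℝ≥0∞) < exitTime W (box b) ω
      rw [lt_exitTime_iff W b ω hω t]
      exact ⟨fun h q hq k => h k q hq, fun h k q hq => h q hq k⟩
  have : @Measurable (NullMeasurableSpace Ω P) ℝ≥0∞ _ _ (exitTime W (box b)) :=
    measurable_of_Ioi key
  exact this

lemma exitTime_lt_top (W : ℝ≥0 → Ω → EuclideanSpace ℝ (Fin d)) (hW : IsStandardBM W P)
    (k₀ : Fin d) (b : Fin d → ℝ) (hb : ∀ k, 0 < b k) :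
    ∀ᵐ ω ∂P, exitTime W (box b) ω < ∞ := by
  have hsf := sf_survFn (P := P) (fun t ω => W t ω k₀) (hW.coord k₀)
  obtain ⟨c, C, hc, hC, hgC⟩ := hsf.exp_decay
  have hb2 : (b k₀).toNNReal ^ 2 ≠ 0 := pow_ne_zero 2 (by simpa using hb k₀)
  have h0 : P {ω | ¬ (exitTime W (box b) ω < ∞)} = 0 := by
    have h1 : ∀ n : ℕ, P {ω | ¬ (exitTime W (box b) ω < ∞)} ≤
        ENNReal.ofReal (C * Real.exp (-c * n)) := by
      intro n
      have h2 : P {ω | ¬ (exitTime W (box b) ω < ∞)} ≤
          P {ω | (((n : ℝ≥0) * (b k₀).toNNReal ^ 2 : ℝ≥0) : ℝ≥0∞) < exitTime W (box b) ω} := by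
        refine measure_mono fun ω hω => ?_
        have : exitTime W (box b) ω = ∞ := not_lt_top_iff.1 hω
        change _ < exitTime W (box b) ω
        rw [this]; exact ENNReal.coe_lt_top
      refine h2.trans ?_
      rw [prob_lt_exitTime W hW k₀ b hb]
      refine ENNReal.ofReal_le_ofReal ?_
      rw [← Finset.mul_prod_erase Finset.univ _ (Finset.mem_univ k₀)]
      refine (mul_le_of_le_one_right (hsf.nonneg _)
        (Finset.prod_le_one (fun i _ => hsf.nonneg _) fun i _ => hsf.le_one _)).trans ?_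
      rw [mul_div_cancel_right₀ _ hb2]
      have := hgC n
      simpa using this
    have h3 : Tendsto (fun n : ℕ => ENNReal.ofReal (C * Real.exp (-c * n))) atTop (𝓝 0) := by
      have h4 : Tendsto (fun n : ℕ => C * Real.exp (-c * n)) atTop (𝓝 (C * 0)) := by
        refine Tendsto.const_mul C ?_
        refine Real.tendsto_exp_atBot.comp ?_
        exact (tendsto_natCast_atTop_atTop.const_mul_atTop_of_neg (by linarith))
      rw [mul_zero] at h4
      have h5 := (ENNReal.continuous_ofReal.tendsto 0).comp h4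
      rw [ENNReal.ofReal_zero] at h5
      exact h5
    exact le_antisymm (ge_of_tendsto' h3 h1) zero_le
  exact h0

/-- Layer cake formula for a scaled exit time. -/
lemma scaled_moment (W : ℝ≥0 → Ω → EuclideanSpace ℝ (Fin d)) (hW : IsStandardBM W P)
    (k₀ : Fin d) (b : Fin d → ℝ) (hb : ∀ k, 0 < b k) {p : ℝ} (hp : 0 < p) (c : ℝ≥0) (hc : c ≠ 0) :
    (c : ℝ≥0∞) ^ p * ∫⁻ ω, exitTime W (box b) ω ^ p ∂P =
      ENNReal.ofReal p * ∫⁻ t in Ioi (0 : ℝ),
        ENNReal.ofReal (∏ k, sf P (fun t ω => W t ω k₀)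
          (t.toNNReal * (1 / (c * (b k).toNNReal ^ 2)))) * ENNReal.ofReal (t ^ (p - 1)) := by
  have hc' : (0 : ℝ) < c := by positivity
  have haem := aemeasurable_exitTime W hW b
  have hfin := exitTime_lt_top W hW k₀ b hb
  set f : Ω → ℝ := fun ω => c * (exitTime W (box b) ω).toReal with hf
  have hf0 : 0 ≤ᵐ[P] f := ae_of_all _ fun ω => by
    simp only [hf, Pi.zero_apply]; positivity
  have hfm : AEMeasurable f P := (haem.ennreal_toReal).const_mul _
  have h1 := lintegral_rpow_eq_lintegral_meas_lt_mul P hf0 hfm hp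
  have h2 : ∫⁻ ω, ENNReal.ofReal (f ω ^ p) ∂P =
      (c : ℝ≥0∞) ^ p * ∫⁻ ω, exitTime W (box b) ω ^ p ∂P := by
    rw [← lintegral_const_mul'' _ (haem.pow_const p)]
    refine lintegral_congr_ae ?_
    filter_upwards [hfin] with ω hω
    simp only [hf]
    rw [Real.mul_rpow hc'.le ENNReal.toReal_nonneg,
      ENNReal.ofReal_mul (Real.rpow_nonneg hc'.le p),
      ← ENNReal.ofReal_rpow_of_nonneg hc'.le hp.le, ENNReal.ofReal_coe_nnreal,
      ← ENNReal.ofReal_rpow_of_nonneg ENNReal.toReal_nonneg hp.le, ENNReal.ofReal_toReal hω.ne]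
  rw [← h2, h1]
  congr 1
  refine setLIntegral_congr_fun measurableSet_Ioi fun t ht => ?_
  have ht' : (0 : ℝ) < t := ht
  simp only
  congr 1
  have h3 : P {ω | t < f ω} = P {ω | ((t.toNNReal / c : ℝ≥0) : ℝ≥0∞) < exitTime W (box b) ω} := by
    refine measure_congr ?_
    filter_upwards [hfin] with ω hω
    refine propext ?_
    change t < f ω ↔ ((t.toNNReal / c : ℝ≥0) : ℝ≥0∞) < exitTime W (box b) ω
    simp only [hf]
    lift exitTime W (box b) ω to ℝ≥0 using hω.ne with x hx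
    rw [ENNReal.coe_toReal, ENNReal.coe_lt_coe, ← NNReal.coe_lt_coe, NNReal.coe_div,
      Real.coe_toNNReal t ht'.le, div_lt_iff₀ hc', mul_comm]
  rw [h3, prob_lt_exitTime W hW k₀ b hb]
  congr 1
  refine Finset.prod_congr rfl fun k _ => ?_
  congr 1
  rw [div_div, mul_one_div]

end Pool.Agent.Results.MP_1e851b_pr
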