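import Mathlib

/-!
Definitions used in the statement about exit times of Brownian motion from boxes.
-/

open MeasureTheory ProbabilityTheory Set
open scoped ENNReal NNReal

namespace Pool.Agent.Results.MP_1e851b_pr

/-- The open box `{x : |x_k| < a_k for all k}` in `ℝ^d`, centred at the origin. -/
def box {d : ℕ} (a : Fin d → ℝ) : Set (EuclideanSpace ℝ (Fin d)) := {x | ∀ k, |x k| < a k}

open scoped ContDiff in
/-- The first Dirichlet eigenvalue of `-Δ` on an open set `D`, in its variational form: the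
infimum of `∫ |∇u|² / ∫ u²` over all nonzero `u ∈ C_c^∞(D)`. (`‖fderiv ℝ u x‖` is the Euclidean
norm of the gradient of `u` at `x`.) -/
noncomputable def dirichletEigenvalue {d : ℕ} (D : Set (EuclideanSpace ℝ (Fin d))) : ℝ :=
  sInf {r : ℝ | ∃ u : EuclideanSpace ℝ (Fin d) → ℝ, ContDiff ℝ ∞ u ∧ HasCompactSupport u ∧
    tsupport u ⊆ D ∧ u ≠ 0 ∧ r = (∫ x, ‖fderiv ℝ u x‖ ^ 2) / ∫ x, u x ^ 2}

/-- The first exit time `inf {t ≥ 0 : W_t ∉ D}` of the path `t ↦ W t ω` from `D`,
with value `∞` if the path never leaves `D`. -/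
noncomputable def exitTime {d : ℕ} {Ω : Type*} (W : ℝ≥0 → Ω → EuclideanSpace ℝ (Fin d))
    (D : Set (EuclideanSpace ℝ (Fin d))) (ω : Ω) : ℝ≥0∞ :=
  ⨅ (t : ℝ≥0) (_ : W t ω ∉ D), (t : ℝ≥0∞)

/-- `W` is a standard `d`-dimensional Brownian motion started at the origin: its coordinates are
independent standard real Brownian motions. -/
structure IsStandardBM {d : ℕ} {Ω : Type*} [MeasurableSpace Ω]
    (W : ℝ≥0 → Ω → EuclideanSpace ℝ (Fin d)) (P : Measure Ω) : Prop where
  coord : ∀ k, IsBrownianReal (fun t ω => W t ω k) P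
  indep : iIndepFun (fun (k : Fin d) (ω : Ω) (t : ℝ≥0) => W t ω k) P

/-- The normalised exit-time moment `λ₁(D)^p · E_0[τ_D^p]`, as an element of `[0, ∞]`. -/
noncomputable def normalizedMoment {d : ℕ} {Ω : Type*} [MeasurableSpace Ω]
    (W : ℝ≥0 → Ω → EuclideanSpace ℝ (Fin d)) (P : Measure Ω) (p : ℝ)
    (D : Set (EuclideanSpace ℝ (Fin d))) : ℝ≥0∞ :=
  ENNReal.ofReal (dirichletEigenvalue D) ^ p * ∫⁻ ω, exitTime W D ω ^ p ∂P

end Pool.Agent.Results.MP_1e851b_pr
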