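import Mathlib

/-!
Gaussian averaging operators killed outside an interval, and the total-positivity (order two)
argument that makes the discretised survival probabilities of Brownian motion log-concave.
-/

open MeasureTheory ProbabilityTheory Set Filter
open scoped ENNReal NNReal Topology

namespace Pool.Agent.LibBoxExit

/-- Average of `F` over a Gaussian of variance `h` centred at `x`. -/
noncomputable def gav (h : ℝ≥0) (F : ℝ → ℝ) (x : ℝ) : ℝ := ∫ z, F (x + z) ∂(gaussianReal 0 h)

/-- `F` cut off outside `[-a, a]`. -/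
noncomputable def cut (a : ℝ) (F : ℝ → ℝ) (y : ℝ) : ℝ := if |y| ≤ a then F y else 0

/-- Iterated killed Gaussian operator along a list of time steps. -/
noncomputable def kil (a : ℝ) : List ℝ≥0 → (ℝ → ℝ) → (ℝ → ℝ)
  | [], f => f
  | h :: l, f => gav h (cut a (kil a l f))

/-- Even measurable functions with values in `[0,1]`. -/
structure Good (f : ℝ → ℝ) : Prop where
  meas : Measurable f
  nonneg : ∀ x, 0 ≤ f x
  le_one : ∀ x, f x ≤ 1
  even : ∀ x, f (-x) = f x

/-- Ratio order: `f / u` is nonincreasing in `|x|` (cross-multiplied). -/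
def RO (f u : ℝ → ℝ) : Prop := ∀ x y, |x| ≤ |y| → f y * u x ≤ f x * u y

lemma good_one : Good (fun _ => 1) := ⟨measurable_const, by simp, by simp, by simp⟩

lemma Good.cut {a : ℝ} {f : ℝ → ℝ} (hf : Good f) : Good (cut a f) where
  meas := by
    unfold LibBoxExit.cut
    exact Measurable.ite (measurableSet_le (by fun_prop) (by fun_prop)) hf.meas measurable_const
  nonneg x := by
    unfold LibBoxExit.cut; split_ifs
    · exact hf.nonneg x
    · exact le_rfl
  le_one x := by
    unfold LibBoxExit.cut; split_ifs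
    · exact hf.le_one x
    · exact zero_le_one
  even x := by
    unfold LibBoxExit.cut; simp [hf.even x]

lemma Good.integrable_shift {f : ℝ → ℝ} (hf : Good f) (h : ℝ≥0) (x : ℝ) :
    Integrable (fun z => f (x + z)) (gaussianReal 0 h) := by
  refine Integrable.of_bound (C := 1) ?_ ?_
  · exact (hf.meas.comp (measurable_const_add x)).aestronglyMeasurable
  · refine ae_of_all _ fun z => ?_
    rw [Real.norm_eq_abs, abs_of_nonneg (hf.nonneg _)]
    exact hf.le_one _

lemma gav_eq (h : ℝ≥0) (f : ℝ → ℝ) (hf : Measurable f) (x : ℝ) :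
    gav h f x = ∫ y, f y ∂(gaussianReal x h) := by
  have h1 : (gaussianReal 0 h).map (x + ·) = gaussianReal x h := by
    rw [gaussianReal_map_const_add, zero_add]
  rw [← h1, integral_map (by fun_prop) hf.aestronglyMeasurable]
  rfl

lemma Good.gav {f : ℝ → ℝ} (hf : Good f) (h : ℝ≥0) : Good (gav h f) where
  meas := by
    have : StronglyMeasurable (fun p : ℝ × ℝ => f (p.1 + p.2)) :=
      (hf.meas.comp (measurable_fst.add measurable_snd)).stronglyMeasurable
    exact this.integral_prod_right'.measurable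
  nonneg x := integral_nonneg fun z => hf.nonneg _
  le_one x := by
    calc ∫ z, f (x + z) ∂(gaussianReal 0 h) ≤ ∫ z, (1 : ℝ) ∂(gaussianReal 0 h) :=
          integral_mono (hf.integrable_shift h x) (integrable_const _) fun z => hf.le_one _
      _ = 1 := by simp
  even x := by
    have h1 : (gaussianReal 0 h).map (fun z => -z) = gaussianReal 0 h := by
      rw [gaussianReal_map_neg, neg_zero]
    unfold LibBoxExit.gav
    conv_lhs => rw [← h1]
    rw [integral_map (by fun_prop) (by
      exact (hf.meas.comp (measurable_const_add (-x))).aestronglyMeasurable)]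
    refine integral_congr_ae (ae_of_all _ fun z => ?_)
    have : -x + -z = -(x + z) := by ring
    simp only [this, hf.even]

/-- symmetrised Gaussian kernel -/
noncomputable def ker (h : ℝ≥0) (x y : ℝ) : ℝ :=
  (gaussianPDFReal x h y + gaussianPDFReal x h (-y)) / 2

lemma ker_nonneg (h : ℝ≥0) (x y : ℝ) : 0 ≤ ker h x y := by
  unfold ker
  have := gaussianPDFReal_nonneg x h y
  have := gaussianPDFReal_nonneg x h (-y)
  positivity

lemma ker_eq (h : ℝ≥0) (hh : h ≠ 0) (x y : ℝ) :
    ker h x y = ((√(2 * Real.pi * h))⁻¹ * Real.exp (-x ^ 2 / (2 * h)) * Real.exp (-y ^ 2 / (2 * h)))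
      * Real.cosh (x * y / h) := by
  have hh' : (h : ℝ) ≠ 0 := by exact_mod_cast hh
  unfold ker gaussianPDFReal
  rw [Real.cosh_eq]
  have e1 : Real.exp (-(y - x) ^ 2 / (2 * h)) =
      Real.exp (-x ^ 2 / (2 * h)) * Real.exp (-y ^ 2 / (2 * h)) * Real.exp (x * y / h) := by
    rw [← Real.exp_add, ← Real.exp_add]; congr 1; field_simp; ring
  have e2 : Real.exp (-(-y - x) ^ 2 / (2 * h)) =
      Real.exp (-x ^ 2 / (2 * h)) * Real.exp (-y ^ 2 / (2 * h)) * Real.exp (-(x * y / h)) := by
    rw [← Real.exp_add, ← Real.exp_add]; congr 1; field_simp; ring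
  rw [e1, e2]; ring

lemma cosh_tp2 {x x' y z : ℝ} (hx : |x'| ≤ |x|) (hy : |y| ≤ |z|) (c : ℝ) (hc : 0 ≤ c) :
    Real.cosh (x * y * c) * Real.cosh (x' * z * c) ≤
      Real.cosh (x' * y * c) * Real.cosh (x * z * c) := by
  have key : ∀ A B : ℝ, Real.cosh A * Real.cosh B = (Real.cosh (A + B) + Real.cosh (A - B)) / 2 := by
    intro A B; rw [Real.cosh_add, Real.cosh_sub]; ring
  have habs : ∀ u v : ℝ, Real.cosh (u * v * c) = Real.cosh (|u| * |v| * c) := by
    intro u v
    rw [← Real.cosh_abs (u * v * c), abs_mul, abs_mul, abs_of_nonneg hc]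
  rw [habs x y, habs x' z, habs x' y, habs x z]
  set X := |x|; set X' := |x'|; set Y := |y|; set Z := |z|
  have hX' : 0 ≤ X' := abs_nonneg _
  have hY : 0 ≤ Y := abs_nonneg _
  have hX : 0 ≤ X := hX'.trans hx
  have hZ : 0 ≤ Z := hY.trans hy
  rw [key, key]
  have h1 : Real.cosh (X * Y * c + X' * Z * c) ≤ Real.cosh (X' * Y * c + X * Z * c) := by
    rw [Real.cosh_le_cosh, abs_of_nonneg (by positivity), abs_of_nonneg (by positivity)]
    nlinarith [mul_nonneg (mul_nonneg (sub_nonneg.2 hx) (sub_nonneg.2 hy)) hc]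
  have h2 : Real.cosh (X * Y * c - X' * Z * c) ≤ Real.cosh (X' * Y * c - X * Z * c) := by
    rw [Real.cosh_le_cosh, abs_le]
    have e3 : X' * Y * c ≤ X * Z * c := by
      apply mul_le_mul_of_nonneg_right _ hc
      exact mul_le_mul hx hy hY hX
    rw [abs_of_nonpos (by linarith)]
    constructor
    · nlinarith [mul_nonneg (mul_nonneg (sub_nonneg.2 hx) (add_nonneg hZ hY)) hc]
    · nlinarith [mul_nonneg (mul_nonneg (add_nonneg hX hX') (sub_nonneg.2 hy)) hc]
  linarith

lemma ker_tp2 (h : ℝ≥0) {x x' y z : ℝ} (hx : |x'| ≤ |x|) (hy : |y| ≤ |z|) :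
    ker h x y * ker h x' z ≤ ker h x' y * ker h x z := by
  by_cases hh : h = 0
  · subst hh; simp [ker]
  have hh' : (0 : ℝ) < h := by positivity
  rw [ker_eq h hh, ker_eq h hh, ker_eq h hh, ker_eq h hh]
  have := cosh_tp2 hx hy (1 / (h : ℝ)) (by positivity)
  simp only [mul_one_div] at this
  have hpos : 0 ≤ ((√(2 * Real.pi * h))⁻¹) ^ 2 * Real.exp (-x ^ 2 / (2 * h)) *
      Real.exp (-y ^ 2 / (2 * h)) * Real.exp (-x' ^ 2 / (2 * h)) * Real.exp (-z ^ 2 / (2 * h)) := by
    positivity
  nlinarith [mul_le_mul_of_nonneg_left this hpos]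

lemma integrable_ker (h : ℝ≥0) (x : ℝ) : Integrable (ker h x) := by
  unfold ker
  have h1 := integrable_gaussianPDFReal x h
  have h2 : Integrable (fun y => gaussianPDFReal x h (-y)) := h1.comp_neg
  exact (h1.add h2).div_const 2

lemma integrable_ker_mul (h : ℝ≥0) (x : ℝ) {f : ℝ → ℝ} (hf : Good f) :
    Integrable (fun y => ker h x y * f y) := by
  refine (integrable_ker h x).mul_bdd (c := 1) hf.meas.aestronglyMeasurable (ae_of_all _ fun y => ?_)
  rw [Real.norm_eq_abs, abs_of_nonneg (hf.nonneg _)]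
  exact hf.le_one _

lemma gav_eq_ker (h : ℝ≥0) (hh : h ≠ 0) {f : ℝ → ℝ} (hf : Good f) (x : ℝ) :
    gav h f x = ∫ y, ker h x y * f y := by
  rw [gav_eq h f hf.meas, integral_gaussianReal_eq_integral_smul hh]
  simp only [smul_eq_mul]
  have hi : Integrable (fun y => gaussianPDFReal x h y * f y) := by
    refine (integrable_gaussianPDFReal x h).mul_bdd (c := 1) hf.meas.aestronglyMeasurable
      (ae_of_all _ fun y => ?_)
    rw [Real.norm_eq_abs, abs_of_nonneg (hf.nonneg _)]
    exact hf.le_one _
  have h2 : ∫ y, gaussianPDFReal x h (-y) * f y = ∫ y, gaussianPDFReal x h y * f y := by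
    rw [← integral_neg_eq_self]
    refine integral_congr_ae (ae_of_all _ fun y => ?_)
    simp [hf.even]
  have h3 : Integrable (fun y => gaussianPDFReal x h (-y) * f y) := by
    have := hi.comp_neg
    refine this.congr (ae_of_all _ fun y => ?_)
    simp [hf.even]
  have h4 : (fun y => ker h x y * f y) =
      fun y => (gaussianPDFReal x h y * f y + gaussianPDFReal x h (-y) * f y) / 2 := by
    ext y; unfold ker; ring
  rw [h4, integral_div, integral_add hi h3, h2]; ring

/-- Total positivity: Gaussian averaging preserves the ratio order of even functions. -/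
lemma RO.gav {f u : ℝ → ℝ} (hf : Good f) (hu : Good u) (h : ℝ≥0) (hfu : RO f u) :
    RO (gav h f) (gav h u) := by
  intro x' x hx
  by_cases hh : h = 0
  · subst hh
    simpa [LibBoxExit.gav] using hfu x' x hx
  rw [gav_eq_ker h hh hf, gav_eq_ker h hh hf, gav_eq_ker h hh hu, gav_eq_ker h hh hu]
  -- four product integrals
  set k := ker h x with hk
  set k' := ker h x' with hk'
  have i1 := integrable_ker_mul h x hf
  have i2 := integrable_ker_mul h x hu
  have i3 := integrable_ker_mul h x' hf
  have i4 := integrable_ker_mul h x' hu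
  have e1 : (∫ y, k' y * f y) * ∫ y, k y * u y =
      ∫ z : ℝ × ℝ, (k' z.1 * f z.1) * (k z.2 * u z.2) := by
    rw [← integral_prod_mul]; rfl
  have e2 : (∫ y, k' y * f y) * ∫ y, k y * u y =
      ∫ z : ℝ × ℝ, (k z.1 * u z.1) * (k' z.2 * f z.2) := by
    rw [mul_comm, ← integral_prod_mul]; rfl
  have e3 : (∫ y, k y * f y) * ∫ y, k' y * u y =
      ∫ z : ℝ × ℝ, (k z.1 * f z.1) * (k' z.2 * u z.2) := by
    rw [← integral_prod_mul]; rfl
  have e4 : (∫ y, k y * f y) * ∫ y, k' y * u y =
      ∫ z : ℝ × ℝ, (k' z.1 * u z.1) * (k z.2 * f z.2) := by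
    rw [mul_comm, ← integral_prod_mul]; rfl
  have j1 : Integrable (fun z : ℝ × ℝ => (k' z.1 * f z.1) * (k z.2 * u z.2)) := i3.mul_prod i2
  have j2 : Integrable (fun z : ℝ × ℝ => (k z.1 * u z.1) * (k' z.2 * f z.2)) := i2.mul_prod i3
  have j3 : Integrable (fun z : ℝ × ℝ => (k z.1 * f z.1) * (k' z.2 * u z.2)) := i1.mul_prod i4
  have j4 : Integrable (fun z : ℝ × ℝ => (k' z.1 * u z.1) * (k z.2 * f z.2)) := i4.mul_prod i1
  have key : ∫ z : ℝ × ℝ, ((k z.1 * f z.1) * (k' z.2 * u z.2) + (k' z.1 * u z.1) * (k z.2 * f z.2)) ≤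
      ∫ z : ℝ × ℝ, ((k' z.1 * f z.1) * (k z.2 * u z.2) + (k z.1 * u z.1) * (k' z.2 * f z.2)) := by
    refine integral_mono (j3.add j4) (j1.add j2) fun z => ?_
    obtain ⟨y, z⟩ := z
    simp only
    rcases le_total |y| |z| with hyz | hyz
    · have t := ker_tp2 h hx hyz
      have r := hfu y z hyz
      nlinarith [mul_nonneg (sub_nonneg.2 t) (sub_nonneg.2 r)]
    · have t := ker_tp2 h hx hyz
      have r := hfu z y hyz
      nlinarith [mul_nonneg (sub_nonneg.2 t) (sub_nonneg.2 r)]
  rw [integral_add j3 j4, integral_add j1 j2] at key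
  linarith

lemma RO.cut {f u : ℝ → ℝ} (a : ℝ) (hfu : RO f u) :
    RO (cut a f) (cut a u) := by
  intro x y hxy
  unfold LibBoxExit.cut
  by_cases h1 : |y| ≤ a
  · have h2 : |x| ≤ a := hxy.trans h1
    simp only [h1, h2, if_true]
    exact hfu x y hxy
  · simp only [h1, if_false]; simp

lemma RO.cut_one {f : ℝ → ℝ} (hf : Good f) (a : ℝ) (hfu : RO f (fun _ => 1)) :
    RO (LibBoxExit.cut a f) (fun _ => 1) := by
  intro x y hxy
  unfold LibBoxExit.cut
  by_cases h1 : |y| ≤ a
  · have h2 : |x| ≤ a := hxy.trans h1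
    simp only [h1, h2, if_true]
    exact hfu x y hxy
  · simp only [h1, if_false]
    by_cases h2 : |x| ≤ a
    · simp [h2, hf.nonneg]
    · simp [h2]

lemma Good.kil {f : ℝ → ℝ} (hf : Good f) (a : ℝ) (l : List ℝ≥0) : Good (kil a l f) := by
  induction l with
  | nil => exact hf
  | cons h l ih => exact (ih.cut).gav h

lemma RO.kil {f u : ℝ → ℝ} (hf : Good f) (hu : Good u) (a : ℝ) (l : List ℝ≥0) (hfu : RO f u) :
    RO (kil a l f) (kil a l u) := by
  induction l with
  | nil => exact hfu
  | cons h l ih =>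
    exact RO.gav ((hf.kil a l).cut) ((hu.kil a l).cut) h
      (RO.cut a ih)

lemma gav_one (h : ℝ≥0) : gav h (fun _ => 1) = fun _ => 1 := by
  ext x; simp [gav]

lemma RO.kil_one (a : ℝ) (l : List ℝ≥0) : RO (LibBoxExit.kil a l (fun _ => 1)) (fun _ => 1) := by
  induction l with
  | nil => intro x y _; simp [LibBoxExit.kil]
  | cons h l ih =>
    have := RO.gav ((good_one.kil a l).cut (a := a)) good_one h
      (RO.cut_one (good_one.kil a l) a ih)
    rwa [gav_one] at this

lemma kil_append (a : ℝ) (l₁ l₂ : List ℝ≥0) (f : ℝ → ℝ) :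
    kil a (l₁ ++ l₂) f = kil a l₁ (kil a l₂ f) := by
  induction l₁ with
  | nil => rfl
  | cons h l ih => simp only [List.cons_append, kil, ih]

/-- monotonicity/linearity of the killed operator -/
lemma kil_le {f u : ℝ → ℝ} (hf : Good f) (hu : Good u) (a : ℝ) (l : List ℝ≥0) {c d : ℝ}
    (h : ∀ y, c * f y ≤ d * u y) : ∀ y, c * kil a l f y ≤ d * kil a l u y := by
  induction l with
  | nil => exact h
  | cons s l ih =>
    intro y
    simp only [kil, gav]
    rw [← integral_const_mul, ← integral_const_mul]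
    refine integral_mono ?_ ?_ ?_
    · exact (((hf.kil a l).cut).integrable_shift s y).const_mul c
    · exact (((hu.kil a l).cut).integrable_shift s y).const_mul d
    · intro z
      simp only [cut]
      split_ifs
      · exact ih _
      · simp

/-- Four-point inequality for discretised survival probabilities. -/
lemma four_point_discrete (a : ℝ) (r t s : List ℝ≥0) :
    kil a (r ++ (t ++ s)) (fun _ => 1) 0 * kil a t (fun _ => 1) 0 ≤
      kil a (t ++ s) (fun _ => 1) 0 * kil a (r ++ t) (fun _ => 1) 0 := by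
  have g1 : Good (kil a (t ++ s) (fun _ => 1)) := good_one.kil a _
  have g2 : Good (kil a t (fun _ => 1)) := good_one.kil a _
  have hro : RO (kil a (t ++ s) (fun _ => 1)) (kil a t (fun _ => 1)) := by
    rw [kil_append]
    exact RO.kil (good_one.kil a s) good_one a t (RO.kil_one a s)
  have h := kil_le (c := kil a t (fun _ => 1) 0) (d := kil a (t ++ s) (fun _ => 1) 0) g1 g2 a r
    (fun y => by
      have := hro 0 y (by simp)
      linarith) 0
  rw [kil_append a r (t ++ s), kil_append a r t]
  linarith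

/-- exponential-martingale bound for the discretised exit probability -/
lemma one_sub_kil_le (a : ℝ) (ha : 0 ≤ a) (lam : ℝ) (l : List ℝ≥0) (x : ℝ) :
    1 - kil a l (fun _ => 1) x ≤
      Real.cosh (lam * x) * Real.exp (lam ^ 2 * (l.sum : ℝ≥0) / 2) / Real.cosh (lam * a) := by
  induction l generalizing x with
  | nil =>
    simp only [kil, sub_self]
    positivity
  | cons h l ih =>
    have hg : Good (cut a (kil a l (fun _ => 1))) := (good_one.kil a l).cut
    have hca : 0 < Real.cosh (lam * a) := Real.cosh_pos _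
    set C := Real.exp (lam ^ 2 * (l.sum : ℝ≥0) / 2) / Real.cosh (lam * a) with hC
    have hC0 : 0 ≤ C := by positivity
    have i0 : ∀ t : ℝ, Integrable (fun z => Real.exp (t * z)) (gaussianReal 0 h) :=
      fun t => integrable_exp_mul_gaussianReal t
    have hcosh : ∀ z : ℝ, Real.cosh (lam * (x + z)) =
        Real.exp (lam * x) / 2 * Real.exp (lam * z) + Real.exp (-(lam * x)) / 2 * Real.exp (-lam * z) := by
      intro z
      rw [Real.cosh_eq]
      have : Real.exp (lam * (x + z)) = Real.exp (lam * x) * Real.exp (lam * z) := by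
        rw [← Real.exp_add]; ring_nf
      have h2 : Real.exp (-(lam * (x + z))) = Real.exp (-(lam * x)) * Real.exp (-lam * z) := by
        rw [← Real.exp_add]; ring_nf
      rw [this, h2]; ring
    have hint : Integrable (fun z => Real.cosh (lam * (x + z))) (gaussianReal 0 h) := by
      simp_rw [hcosh]
      exact ((i0 lam).const_mul _).add ((i0 (-lam)).const_mul _)
    have hval : ∫ z, Real.cosh (lam * (x + z)) ∂(gaussianReal 0 h) =
        Real.cosh (lam * x) * Real.exp (lam ^ 2 * h / 2) := by
      simp_rw [hcosh]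
      rw [integral_add ((i0 lam).const_mul _) ((i0 (-lam)).const_mul _), integral_const_mul,
        integral_const_mul]
      have m1 : ∫ z, Real.exp (lam * z) ∂(gaussianReal 0 h) = Real.exp (lam ^ 2 * h / 2) := by
        have := congrFun (mgf_id_gaussianReal (μ := 0) (v := h)) lam
        simp only [mgf, id] at this
        rw [this]; ring_nf
      have m2 : ∫ z, Real.exp (-lam * z) ∂(gaussianReal 0 h) = Real.exp (lam ^ 2 * h / 2) := by
        have := congrFun (mgf_id_gaussianReal (μ := 0) (v := h)) (-lam)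
        simp only [mgf, id] at this
        rw [this]; ring_nf
      rw [m1, m2, Real.cosh_eq]; ring
    have hpt : ∀ y : ℝ, 1 - cut a (kil a l (fun _ => 1)) y ≤ Real.cosh (lam * y) * C := by
      intro y
      unfold cut
      split_ifs with hy
      · have := ih y
        rw [mul_div_assoc] at this
        exact this
      · have h1 : Real.cosh (lam * a) ≤ Real.cosh (lam * y) := by
          rw [Real.cosh_le_cosh, abs_mul, abs_mul, abs_of_nonneg ha]
          exact mul_le_mul_of_nonneg_left (not_le.1 hy).le (abs_nonneg _)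
        have h2 : (1 : ℝ) ≤ Real.exp (lam ^ 2 * (l.sum : ℝ≥0) / 2) := by
          apply Real.one_le_exp; positivity
        rw [sub_zero, hC, ← mul_div_assoc, le_div_iff₀ hca, one_mul]
        calc Real.cosh (lam * a) ≤ Real.cosh (lam * y) := h1
          _ = Real.cosh (lam * y) * 1 := (mul_one _).symm
          _ ≤ _ := mul_le_mul_of_nonneg_left h2 (Real.cosh_pos _).le
    have hone : (1 : ℝ) = ∫ _z, (1 : ℝ) ∂(gaussianReal 0 h) := by simp
    have : 1 - kil a (h :: l) (fun _ => 1) x =
        ∫ z, (1 - cut a (kil a l (fun _ => 1)) (x + z)) ∂(gaussianReal 0 h) := by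
      rw [integral_sub (integrable_const _) (hg.integrable_shift h x), ← hone]
      rfl
    rw [this]
    calc ∫ z, (1 - cut a (kil a l (fun _ => 1)) (x + z)) ∂(gaussianReal 0 h)
        ≤ ∫ z, Real.cosh (lam * (x + z)) * C ∂(gaussianReal 0 h) :=
          integral_mono ((integrable_const _).sub (hg.integrable_shift h x)) (hint.mul_const C)
            fun z => hpt _
      _ = Real.cosh (lam * x) * Real.exp (lam ^ 2 * h / 2) * C := by
          rw [integral_mul_const, hval]
      _ = _ := by
          rw [hC, List.sum_cons, NNReal.coe_add]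
          have : Real.exp (lam ^ 2 * ((h : ℝ) + (l.sum : ℝ≥0)) / 2) =
              Real.exp (lam ^ 2 * h / 2) * Real.exp (lam ^ 2 * (l.sum : ℝ≥0) / 2) := by
            rw [← Real.exp_add]; ring_nf
          rw [this]; ring

end Pool.Agent.LibBoxExit
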