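import Pool.Agent.Lib_MP_1e851b_pr.Kernel

/-!
The survival probability of a one-dimensional Brownian motion in a centred interval, as a limit of
discretised survival probabilities, and the four-point (log-concavity) inequality in time.
-/

open MeasureTheory ProbabilityTheory Set Filter
open scoped ENNReal NNReal Topology

namespace Pool.Agent.LibBoxExit

/-- The path `w` stays in `[-a, a]` at the grid times given by the list of time steps. -/
def surv (a : ℝ) : List ℝ≥0 → (ℝ≥0 → ℝ) → Prop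
  | [], _ => True
  | h :: l, w => |w h| ≤ a ∧ surv a l (fun s => w (h + s))

lemma measurableSet_surv {α : Type*} [MeasurableSpace α] (a : ℝ) (l : List ℝ≥0) :
    ∀ (φ : ℝ≥0 → α → ℝ), (∀ s, Measurable (φ s)) →
      MeasurableSet {q | surv a l (fun s => φ s q)} := by
  induction l with
  | nil => intro φ _; simp [surv]
  | cons h l ih =>
    intro φ hφ
    have h1 : MeasurableSet {q | |φ h q| ≤ a} :=
      measurableSet_le (by have := hφ h; fun_prop) measurable_const
    exact h1.inter (ih (fun s => φ (h + s)) (fun s => hφ _))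

lemma surv_congr_ae {Ω : Type*} {mΩ : MeasurableSpace Ω} {P : Measure Ω} (a : ℝ) (l : List ℝ≥0) :
    ∀ (φ ψ : ℝ≥0 → Ω → ℝ), (∀ s, φ s =ᵐ[P] ψ s) →
      ∀ᵐ ω ∂P, (surv a l (fun s => φ s ω) ↔ surv a l (fun s => ψ s ω)) := by
  induction l with
  | nil => intro φ ψ _; simp [surv]
  | cons h l ih =>
    intro φ ψ hφ
    filter_upwards [hφ h, ih (fun s => φ (h + s)) (fun s => ψ (h + s)) (fun s => hφ _)] with ω h1 h2
    simp only [surv, h1, h2]

lemma prob_surv_meas {Ω : Type*} {mΩ : MeasurableSpace Ω} {P : Measure Ω} (a : ℝ) (l : List ℝ≥0) :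
    ∀ (B : ℝ≥0 → Ω → ℝ), IsPreBrownianReal B P → (∀ t, Measurable (B t)) → ∀ x : ℝ,
      P {ω | surv a l (fun s => x + B s ω)} = ENNReal.ofReal (kil a l (fun _ => 1) x) := by
  induction l with
  | nil =>
    intro B hB _ x
    have : IsProbabilityMeasure P := hB.isGaussianProcess.isProbabilityMeasure
    simp [surv, kil]
  | cons h l ih =>
    intro B hB hm x
    have : IsProbabilityMeasure P := hB.isGaussianProcess.isProbabilityMeasure
    set W : Ω → (ℝ≥0 → ℝ) := fun ω t => B (h + t) ω - B h ω with hW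
    have hWm : Measurable W := measurable_pi_lambda _ fun t => (hm _).sub (hm _)
    have hind : IndepFun W (B h) P := by
      have h1 := hB.indepFun_shift h
      exact h1.comp measurable_id (measurable_pi_apply (⟨h, Set.mem_Iic.2 le_rfl⟩ : Set.Iic h))
    have hmap : P.map (fun ω => (W ω, B h ω)) = (P.map W).prod (gaussianReal 0 h) := by
      rw [(indepFun_iff_map_prod_eq_prod_map_map hWm.aemeasurable (hm h).aemeasurable).1 hind,
        (hB.hasLaw_eval h).map_eq]
    set S : Set ((ℝ≥0 → ℝ) × ℝ) :=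
      {q | |x + q.2| ≤ a ∧ surv a l (fun s => (x + q.2) + q.1 s)} with hS
    have hSm : MeasurableSet S := by
      have h1 : MeasurableSet {q : (ℝ≥0 → ℝ) × ℝ | |x + q.2| ≤ a} :=
        measurableSet_le (by fun_prop) measurable_const
      exact h1.inter (measurableSet_surv a l (fun s (q : (ℝ≥0 → ℝ) × ℝ) => (x + q.2) + q.1 s)
        (fun s => by fun_prop))
    have hev : {ω | surv a (h :: l) (fun s => x + B s ω)} = (fun ω => (W ω, B h ω)) ⁻¹' S := by
      ext ω
      have : (fun s => x + B (h + s) ω) = fun s => x + B h ω + (B (h + s) ω - B h ω) := by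
        ext s; ring
      change (|x + B h ω| ≤ a ∧ surv a l (fun s => x + B (h + s) ω)) ↔
        (|x + B h ω| ≤ a ∧ surv a l (fun s => x + B h ω + (B (h + s) ω - B h ω)))
      rw [this]
    rw [hev, ← Measure.map_apply (hWm.prodMk (hm h)) hSm, hmap, Measure.prod_apply_symm hSm]
    have hg : Good (cut a (kil a l (fun _ => 1))) := (good_one.kil a l).cut
    have hin : ∀ z : ℝ, (P.map W) ((fun w => (w, z)) ⁻¹' S) =
        ENNReal.ofReal (cut a (kil a l (fun _ => 1)) (x + z)) := by
      intro z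
      have hSz : MeasurableSet ((fun w => (w, z)) ⁻¹' S) := measurable_prodMk_right hSm
      rw [Measure.map_apply hWm hSz]
      have : W ⁻¹' ((fun w => (w, z)) ⁻¹' S) =
          {ω | |x + z| ≤ a ∧ surv a l (fun s => (x + z) + W ω s)} := rfl
      rw [this]
      unfold cut
      split_ifs with hz
      · simp only [hz, true_and]
        exact ih (fun t ω => B (h + t) ω - B h ω) (hB.shift h) (fun t => (hm _).sub (hm _)) (x + z)
      · simp [hz]
    simp_rw [hin]
    rw [← ofReal_integral_eq_lintegral_ofReal (hg.integrable_shift h x)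
      (ae_of_all _ fun z => hg.nonneg _)]
    rfl

/-- Discretised survival probabilities of (pre-)Brownian motion are given by the iterated killed
Gaussian operator. -/
lemma prob_surv {Ω : Type*} {mΩ : MeasurableSpace Ω} {P : Measure Ω} (a : ℝ) (l : List ℝ≥0)
    (B : ℝ≥0 → Ω → ℝ) (hB : IsPreBrownianReal B P) :
    P {ω | surv a l (fun s => B s ω)} = ENNReal.ofReal (kil a l (fun _ => 1) 0) := by
  set B' : ℝ≥0 → Ω → ℝ := fun t => (hB.aemeasurable t).mk (B t) with hB'
  have hae : ∀ t, B t =ᵐ[P] B' t := fun t => (hB.aemeasurable t).ae_eq_mk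
  have h1 := prob_surv_meas a l B' (hB.congr hae) (fun t => (hB.aemeasurable t).measurable_mk) 0
  rw [← h1]
  refine measure_congr ?_
  filter_upwards [surv_congr_ae (P := P) a l B B' hae] with ω hω
  simp only [zero_add]
  exact propext hω

lemma nullMeasurableSet_surv {Ω : Type*} {mΩ : MeasurableSpace Ω} {P : Measure Ω} (a : ℝ)
    (l : List ℝ≥0) (φ : ℝ≥0 → Ω → ℝ) (hφ : ∀ s, AEMeasurable (φ s) P) :
    NullMeasurableSet {ω | surv a l (fun s => φ s ω)} P := by
  have h1 := measurableSet_surv a l (fun s => (hφ s).mk (φ s)) (fun s => (hφ s).measurable_mk)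
  refine h1.nullMeasurableSet.congr ?_
  filter_upwards [surv_congr_ae (P := P) a l φ (fun s => (hφ s).mk (φ s))
    (fun s => (hφ s).ae_eq_mk)] with ω hω
  exact propext hω.symm

lemma surv_of_forall (a : ℝ) (l : List ℝ≥0) :
    ∀ w : ℝ≥0 → ℝ, (∀ q ≤ l.sum, |w q| ≤ a) → surv a l w := by
  induction l with
  | nil => intro w _; trivial
  | cons h l ih =>
    intro w hw
    refine ⟨hw h (by simp), ih _ fun q hq => hw _ ?_⟩
    rw [List.sum_cons]
    gcongr

lemma surv_mesh (a : ℝ) (l : List ℝ≥0) (δ : ℝ) (hδ : ∀ h ∈ l, (h : ℝ) ≤ δ) :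
    ∀ w : ℝ≥0 → ℝ, l ≠ [] → surv a l w → ∀ q ≤ l.sum, ∃ q', dist q q' ≤ δ ∧ |w q'| ≤ a := by
  induction l with
  | nil => intro w h; exact absurd rfl h
  | cons h l ih =>
    intro w _ hs q hq
    obtain ⟨hs1, hs2⟩ := hs
    by_cases hqh : q ≤ h
    · refine ⟨h, ?_, hs1⟩
      rw [NNReal.dist_eq, abs_le]
      have h1 : (q : ℝ) ≤ h := by exact_mod_cast hqh
      have h2 := hδ h (by simp)
      have h3 : (0 : ℝ) ≤ q := q.2
      constructor <;> linarith
    · have hqh' : h ≤ q := (not_le.1 hqh).le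
      have hl : l ≠ [] := by
        rintro rfl
        simp at hq
        exact hqh hq
      have hq2 : q - h ≤ l.sum := by
        rw [List.sum_cons] at hq
        exact tsub_le_iff_left.2 hq
      obtain ⟨q', hq'1, hq'2⟩ := ih (fun x hx => hδ x (by simp [hx])) (fun s => w (h + s)) hl hs2
        (q - h) hq2
      refine ⟨h + q', ?_, hq'2⟩
      rw [NNReal.dist_eq] at hq'1 ⊢
      rw [NNReal.coe_sub hqh'] at hq'1
      rw [NNReal.coe_add]
      rwa [show (q : ℝ) - (h + q') = q - h - q' by ring]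

lemma tendsto_measure_of_ae_iff {Ω : Type*} {mΩ : MeasurableSpace Ω} {P : Measure Ω}
    [IsFiniteMeasure P] {A : Set Ω} {As : ℕ → Set Ω} (hA : NullMeasurableSet A P)
    (hAs : ∀ i, NullMeasurableSet (As i) P)
    (hlim : ∀ᵐ x ∂P, ∀ᶠ i in atTop, x ∈ As i ↔ x ∈ A) :
    Tendsto (fun i => P (As i)) atTop (𝓝 (P A)) := by
  obtain ⟨A', hA'm, hA'⟩ := hA
  choose As' hAs'm hAs' using hAs
  have e1 : P A = P A' := measure_congr hA'
  have e2 : ∀ i, P (As i) = P (As' i) := fun i => measure_congr (hAs' i)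
  simp_rw [e1, e2]
  refine tendsto_measure_of_ae_tendsto_indicator_of_isFiniteMeasure atTop hA'm hAs'm ?_
  have h3 : ∀ᵐ x ∂P, ∀ i, (x ∈ As i ↔ x ∈ As' i) := by
    rw [ae_all_iff]
    intro i
    filter_upwards [hAs' i] with x hx
    exact iff_of_eq hx
  filter_upwards [hlim, h3, hA'] with x h1 h2 h4
  filter_upwards [h1] with i hi
  rw [← h2 i, hi]
  exact iff_of_eq h4

/-- Discretised survival probabilities converge to the continuous-time one. -/
lemma tendsto_prob_surv {Ω : Type*} {mΩ : MeasurableSpace Ω} {P : Measure Ω} (a : ℝ)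
    (B : ℝ≥0 → Ω → ℝ) (hB : IsBrownianReal B P) (T : ℝ≥0) (l : ℕ → List ℝ≥0) (δ : ℕ → ℝ)
    (hne : ∀ m, l m ≠ []) (hsum : ∀ m, (l m).sum = T) (hδ : ∀ m, ∀ h ∈ l m, (h : ℝ) ≤ δ m)
    (hδ0 : Tendsto δ atTop (𝓝 0)) :
    Tendsto (fun m => P {ω | surv a (l m) (fun s => B s ω)}) atTop
      (𝓝 (P {ω | ∀ q ≤ T, |B q ω| ≤ a})) ∧ NullMeasurableSet {ω | ∀ q ≤ T, |B q ω| ≤ a} P := by
  have : IsProbabilityMeasure P := hB.isGaussianProcess.isProbabilityMeasure
  have hlim : ∀ᵐ ω ∂P, ∀ᶠ i in atTop, ω ∈ {ω | surv a (l i) (fun s => B s ω)} ↔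
      ω ∈ {ω | ∀ q ≤ T, |B q ω| ≤ a} := by
    filter_upwards [hB.cont] with ω hω
    by_cases h : ∀ q ≤ T, |B q ω| ≤ a
    · refine Eventually.of_forall fun i => ?_
      refine iff_of_true ?_ h
      exact surv_of_forall a (l i) _ (by rw [hsum i]; exact h)
    · have h' := h
      push Not at h
      obtain ⟨q, hq, hqa⟩ := h
      -- open neighbourhood where |B| > a
      have hopen : ∀ᶠ q' in 𝓝 q, a < |B q' ω| :=
        (continuous_abs.comp hω).continuousAt.eventually (lt_mem_nhds hqa)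
      obtain ⟨ε, hε, hball⟩ := Metric.eventually_nhds_iff.1 hopen
      filter_upwards [hδ0.eventually (gt_mem_nhds hε)] with i hi
      refine iff_of_false ?_ h'
      intro hs
      obtain ⟨q', hq'1, hq'2⟩ := surv_mesh a (l i) (δ i) (hδ i) _ (hne i) hs q (by rw [hsum i]; exact hq)
      have := hball (y := q') (by rw [dist_comm]; exact hq'1.trans_lt hi)
      exact absurd hq'2 (not_le.2 this)
  have hAs : ∀ i, NullMeasurableSet {ω | surv a (l i) (fun s => B s ω)} P := fun i =>
    nullMeasurableSet_surv a (l i) B hB.aemeasurable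
  have hA : NullMeasurableSet {ω | ∀ q ≤ T, |B q ω| ≤ a} P := by
    -- as an a.e. limit: use rational times
    obtain ⟨D, hDc, hDd⟩ := TopologicalSpace.exists_countable_dense (Set.Iic T)
    have h1 : NullMeasurableSet (⋂ q ∈ D, {ω | |B (q : ℝ≥0) ω| ≤ a}) P := by
      refine NullMeasurableSet.biInter hDc fun q _ => ?_
      have := hB.aemeasurable (q : ℝ≥0)
      exact nullMeasurableSet_le (by fun_prop) aemeasurable_const
    refine h1.congr ?_
    filter_upwards [hB.cont] with ω hω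
    refine propext ?_
    change ω ∈ (⋂ q ∈ D, {ω | |B (q : ℝ≥0) ω| ≤ a}) ↔ _
    simp only [mem_iInter]
    constructor
    · intro h q hq
      have hc : IsClosed {x : Set.Iic T | |B (x : ℝ≥0) ω| ≤ a} :=
        isClosed_le ((continuous_abs.comp hω).comp continuous_subtype_val) continuous_const
      have hsub : D ⊆ {x : Set.Iic T | |B (x : ℝ≥0) ω| ≤ a} := fun x hx => h x hx
      have := hDd.closure_eq ▸ (closure_minimal hsub hc)
      exact this (mem_univ (⟨q, hq⟩ : Set.Iic T))
    · intro h q _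
      exact h q q.2
  exact ⟨tendsto_measure_of_ae_iff hA hAs hlim, hA⟩

/-- Equidistant grid. -/
noncomputable def grid (m : ℕ) (r : ℝ≥0) : List ℝ≥0 := List.replicate (m + 1) (r / (m + 1))

lemma grid_sum (m : ℕ) (r : ℝ≥0) : (grid m r).sum = r := by
  unfold grid
  rw [List.sum_replicate, nsmul_eq_mul]
  have : ((m + 1 : ℕ) : ℝ≥0) ≠ 0 := by positivity
  push_cast at this ⊢
  field_simp

lemma grid_ne (m : ℕ) (r : ℝ≥0) : grid m r ≠ [] := by
  unfold grid; simp [List.replicate_succ]

lemma grid_mesh (m : ℕ) (r : ℝ≥0) : ∀ h ∈ grid m r, (h : ℝ) ≤ r / (m + 1) := by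
  intro h hh
  unfold grid at hh
  rw [List.eq_of_mem_replicate hh]
  push_cast
  exact le_rfl

lemma tendsto_mesh (r : ℝ≥0) : Tendsto (fun m : ℕ => (r : ℝ) / (m + 1)) atTop (𝓝 0) := by
  have h := (tendsto_const_div_atTop_nhds_zero_nat (r : ℝ)).comp (tendsto_add_atTop_nat 1)
  refine h.congr fun m => ?_
  simp

/-- `P (|B| ≤ a on [0,T])` as a limit of the discretised survival probabilities. -/
lemma tendsto_kil {Ω : Type*} {mΩ : MeasurableSpace Ω} {P : Measure Ω} (a : ℝ)
    (B : ℝ≥0 → Ω → ℝ) (hB : IsBrownianReal B P) (T : ℝ≥0) (l : ℕ → List ℝ≥0) (δ : ℕ → ℝ)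
    (hne : ∀ m, l m ≠ []) (hsum : ∀ m, (l m).sum = T) (hδ : ∀ m, ∀ h ∈ l m, (h : ℝ) ≤ δ m)
    (hδ0 : Tendsto δ atTop (𝓝 0)) :
    Tendsto (fun m => kil a (l m) (fun _ => 1) 0) atTop
      (𝓝 (P.real {ω | ∀ q ≤ T, |B q ω| ≤ a})) := by
  have : IsProbabilityMeasure P := hB.isGaussianProcess.isProbabilityMeasure
  have h1 := (tendsto_prob_surv a B hB T l δ hne hsum hδ hδ0).1
  have h2 := (ENNReal.tendsto_toReal (measure_ne_top P {ω | ∀ q ≤ T, |B q ω| ≤ a})).comp h1
  refine h2.congr fun m => ?_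
  simp only [Function.comp]
  rw [prob_surv a (l m) B hB.toIsPreBrownianReal, ENNReal.toReal_ofReal]
  exact (good_one.kil a (l m)).nonneg 0

/-- Four-point inequality for the closed survival probability. -/
lemma four_point_closed {Ω : Type*} {mΩ : MeasurableSpace Ω} {P : Measure Ω} (a : ℝ)
    (B : ℝ≥0 → Ω → ℝ) (hB : IsBrownianReal B P) (r t s : ℝ≥0) :
    P.real {ω | ∀ q ≤ r + (t + s), |B q ω| ≤ a} * P.real {ω | ∀ q ≤ t, |B q ω| ≤ a} ≤
      P.real {ω | ∀ q ≤ t + s, |B q ω| ≤ a} * P.real {ω | ∀ q ≤ r + t, |B q ω| ≤ a} := by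
  have happ : ∀ (l₁ l₂ : ℕ → List ℝ≥0) (x y : ℝ≥0), (∀ m, (l₁ m).sum = x) → (∀ m, (l₂ m).sum = y) →
      (∀ m, (l₁ m ++ l₂ m).sum = x + y) := by
    intro l₁ l₂ x y h1 h2 m
    rw [List.sum_append, h1, h2]
  have hδ : ∀ m : ℕ, ∀ h ∈ grid m r ++ (grid m t ++ grid m s),
      (h : ℝ) ≤ (r / (m + 1) + t / (m + 1) + s / (m + 1) : ℝ) := by
    intro m h hh
    have p1 : (0 : ℝ) ≤ r / (m + 1) := by positivity
    have p2 : (0 : ℝ) ≤ t / (m + 1) := by positivity
    have p3 : (0 : ℝ) ≤ s / (m + 1) := by positivity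
    rw [List.mem_append, List.mem_append] at hh
    rcases hh with hh | hh | hh
    · have := grid_mesh m r h hh; linarith
    · have := grid_mesh m t h hh; linarith
    · have := grid_mesh m s h hh; linarith
  have hδ0 : Tendsto (fun m : ℕ => (r / (m + 1) + t / (m + 1) + s / (m + 1) : ℝ)) atTop (𝓝 0) := by
    have := ((tendsto_mesh r).add (tendsto_mesh t)).add (tendsto_mesh s)
    simpa using this
  have t1 := tendsto_kil a B hB (r + (t + s)) (fun m => grid m r ++ (grid m t ++ grid m s)) _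
    (fun m => by simp [grid_ne]) (fun m => by simp [List.sum_append, grid_sum]) hδ hδ0
  have t2 := tendsto_kil a B hB t (fun m => grid m t) _
    (fun m => by simp [grid_ne]) (fun m => by simp [grid_sum])
    (fun m h hh => hδ m h (by simp [hh])) hδ0
  have t3 := tendsto_kil a B hB (t + s) (fun m => grid m t ++ grid m s) _
    (fun m => by simp [grid_ne]) (fun m => by simp [List.sum_append, grid_sum])
    (fun m h hh => hδ m h (by
      rw [List.mem_append] at hh
      rcases hh with hh | hh <;> simp [hh])) hδ0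
  have t4 := tendsto_kil a B hB (r + t) (fun m => grid m r ++ grid m t) _
    (fun m => by simp [grid_ne]) (fun m => by simp [List.sum_append, grid_sum])
    (fun m h hh => hδ m h (by
      rw [List.mem_append] at hh
      rcases hh with hh | hh <;> simp [hh])) hδ0
  exact le_of_tendsto_of_tendsto' (t1.mul t2) (t3.mul t4)
    fun m => four_point_discrete a (grid m r) (grid m t) (grid m s)

/-- The law of the survival event does not depend on the Brownian motion. -/
lemma closed_unique {Ω Ω' : Type*} {mΩ : MeasurableSpace Ω} {mΩ' : MeasurableSpace Ω'}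
    {P : Measure Ω} {P' : Measure Ω'} (a : ℝ)
    (B : ℝ≥0 → Ω → ℝ) (hB : IsBrownianReal B P) (B' : ℝ≥0 → Ω' → ℝ) (hB' : IsBrownianReal B' P')
    (T : ℝ≥0) :
    P.real {ω | ∀ q ≤ T, |B q ω| ≤ a} = P'.real {ω | ∀ q ≤ T, |B' q ω| ≤ a} := by
  have t1 := tendsto_kil a B hB T (fun m => grid m T) _ (fun m => grid_ne m T)
    (fun m => grid_sum m T) (fun m => grid_mesh m T) (tendsto_mesh T)
  have t2 := tendsto_kil a B' hB' T (fun m => grid m T) _ (fun m => grid_ne m T)
    (fun m => grid_sum m T) (fun m => grid_mesh m T) (tendsto_mesh T)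
  exact tendsto_nhds_unique t1 t2

end Pool.Agent.LibBoxExit
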