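import Pool.Agent.Lib_MP_1e851b_pr.Process

/-!
Survival probability of Brownian motion in the open interval `(-a, a)`: scaling, uniqueness,
four-point inequality, small-time bound.
-/

open MeasureTheory ProbabilityTheory Set Filter
open scoped ENNReal NNReal Topology

namespace Pool.Agent.LibBoxExit

variable {Ω : Type*} {mΩ : MeasurableSpace Ω} {P : Measure Ω}

lemma nullMeas_closed (a : ℝ) (B : ℝ≥0 → Ω → ℝ) (hB : IsBrownianReal B P) (T : ℝ≥0) :
    NullMeasurableSet {ω | ∀ q ≤ T, |B q ω| ≤ a} P :=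
  (tendsto_prob_surv a B hB T (fun m => grid m T) _ (fun m => grid_ne m T)
    (fun m => grid_sum m T) (fun m => grid_mesh m T) (tendsto_mesh T)).2

lemma open_ae_eq (a : ℝ) (B : ℝ≥0 → Ω → ℝ) (hB : IsBrownianReal B P) (T : ℝ≥0) :
    {ω | ∀ q ≤ T, |B q ω| < a} =ᵐ[P]
      (⋃ n : ℕ, {ω | ∀ q ≤ T, |B q ω| ≤ a - 1 / ((n : ℝ) + 1)} : Set Ω) := by
  filter_upwards [hB.cont] with ω hω
  refine propext ?_
  change (∀ q ≤ T, |B q ω| < a) ↔ ω ∈ (⋃ n : ℕ, {ω | ∀ q ≤ T, |B q ω| ≤ a - 1 / ((n : ℝ) + 1)})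
  rw [mem_iUnion]
  constructor
  · intro h
    have hcomp : IsCompact (Set.Icc (0 : ℝ≥0) T) := isCompact_Icc
    obtain ⟨q₀, hq₀, hmax⟩ := hcomp.exists_isMaxOn (nonempty_Icc.2 zero_le)
      (continuous_abs.comp hω).continuousOn
    have h1 : |B q₀ ω| < a := h q₀ hq₀.2
    obtain ⟨n, hn⟩ := exists_nat_one_div_lt (sub_pos.2 h1)
    refine ⟨n, fun q hq => ?_⟩
    have := hmax (Set.mem_Icc.2 ⟨zero_le, hq⟩)
    simp only [Function.comp] at this
    have h2 : |B q ω| ≤ |B q₀ ω| := this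
    linarith
  · rintro ⟨n, hn⟩ q hq
    have h1 := hn q hq
    have h2 : (0 : ℝ) < 1 / ((n : ℝ) + 1) := by positivity
    linarith

lemma nullMeas_open (a : ℝ) (B : ℝ≥0 → Ω → ℝ) (hB : IsBrownianReal B P) (T : ℝ≥0) :
    NullMeasurableSet {ω | ∀ q ≤ T, |B q ω| < a} P :=
  (NullMeasurableSet.iUnion fun _ => nullMeas_closed _ B hB T).congr (open_ae_eq a B hB T).symm

lemma tendsto_open (a : ℝ) (B : ℝ≥0 → Ω → ℝ) (hB : IsBrownianReal B P) (T : ℝ≥0) :
    Tendsto (fun n : ℕ => P.real {ω | ∀ q ≤ T, |B q ω| ≤ a - 1 / ((n : ℝ) + 1)}) atTop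
      (𝓝 (P.real {ω | ∀ q ≤ T, |B q ω| < a})) := by
  have : IsProbabilityMeasure P := hB.isGaussianProcess.isProbabilityMeasure
  have hmono : Monotone (fun n : ℕ => {ω | ∀ q ≤ T, |B q ω| ≤ a - 1 / ((n : ℝ) + 1)}) := by
    intro n m hnm ω hω q hq
    have h1 := hω q hq
    have h2 : 1 / ((m : ℝ) + 1) ≤ 1 / ((n : ℝ) + 1) := by
      have : (n : ℝ) ≤ m := by exact_mod_cast hnm
      gcongr
    linarith
  have h1 := tendsto_measure_iUnion_atTop (μ := P) hmono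
  rw [← measure_congr (open_ae_eq a B hB T)] at h1
  exact (ENNReal.tendsto_toReal (measure_ne_top P _)).comp h1

/-- Four-point inequality for the open survival probability. -/
lemma four_point_open (a : ℝ) (B : ℝ≥0 → Ω → ℝ) (hB : IsBrownianReal B P) (r t s : ℝ≥0) :
    P.real {ω | ∀ q ≤ r + (t + s), |B q ω| < a} * P.real {ω | ∀ q ≤ t, |B q ω| < a} ≤
      P.real {ω | ∀ q ≤ t + s, |B q ω| < a} * P.real {ω | ∀ q ≤ r + t, |B q ω| < a} :=
  le_of_tendsto_of_tendsto' ((tendsto_open a B hB _).mul (tendsto_open a B hB _))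
    ((tendsto_open a B hB _).mul (tendsto_open a B hB _)) fun _ => four_point_closed _ B hB r t s

lemma open_unique {Ω' : Type*} {mΩ' : MeasurableSpace Ω'} {P' : Measure Ω'} (a : ℝ)
    (B : ℝ≥0 → Ω → ℝ) (hB : IsBrownianReal B P) (B' : ℝ≥0 → Ω' → ℝ) (hB' : IsBrownianReal B' P')
    (T : ℝ≥0) :
    P.real {ω | ∀ q ≤ T, |B q ω| < a} = P'.real {ω | ∀ q ≤ T, |B' q ω| < a} := by
  have t1 := tendsto_open a B hB T
  have t2 := tendsto_open a B' hB' T
  refine tendsto_nhds_unique t1 (t2.congr fun n => ?_)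
  exact (closed_unique _ B hB B' hB' T).symm

/-- Brownian scaling of the survival probability. -/
lemma open_scaling {Ω' : Type*} {mΩ' : MeasurableSpace Ω'} {P' : Measure Ω'} (a : ℝ≥0)
    (ha : a ≠ 0) (B : ℝ≥0 → Ω → ℝ) (hB : IsBrownianReal B P)
    (B' : ℝ≥0 → Ω' → ℝ) (hB' : IsBrownianReal B' P') (T : ℝ≥0) :
    P.real {ω | ∀ q ≤ T, |B q ω| < a} = P'.real {ω | ∀ q ≤ T / a ^ 2, |B' q ω| < 1} := by
  have ha2 : a ^ 2 ≠ 0 := pow_ne_zero 2 ha
  rw [← open_unique 1 _ (hB.smul ha2) B' hB' (T / a ^ 2)]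
  congr 1
  ext ω
  change (∀ q ≤ T, |B q ω| < a) ↔ (∀ q ≤ T / a ^ 2, |(√((a ^ 2 : ℝ≥0) : ℝ))⁻¹ * B (a ^ 2 * q) ω| < 1)
  have ha' : (0 : ℝ) < a := by positivity
  have hs : √((a ^ 2 : ℝ≥0) : ℝ) = a := by
    rw [NNReal.coe_pow, Real.sqrt_sq ha'.le]
  rw [hs]
  have hiff : ∀ q, |(a : ℝ)⁻¹ * B (a ^ 2 * q) ω| < 1 ↔ |B (a ^ 2 * q) ω| < a := by
    intro q
    rw [abs_mul, abs_of_pos (inv_pos.2 ha'), inv_mul_lt_iff₀ ha', mul_one]
  simp_rw [hiff]
  constructor
  · intro h q hq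
    refine h _ ?_
    calc a ^ 2 * q ≤ a ^ 2 * (T / a ^ 2) := by gcongr
      _ = T := by field_simp
  · intro h q hq
    have := h (q / a ^ 2) (by gcongr)
    rwa [mul_div_cancel₀ q ha2] at this

/-- Small-time bound for the exit probability from `(-1, 1)`. -/
lemma one_sub_open_le (B : ℝ≥0 → Ω → ℝ) (hB : IsBrownianReal B P) (T : ℝ≥0) (hT : T ≠ 0) :
    1 - P.real {ω | ∀ q ≤ T, |B q ω| < 1} ≤ 2 * Real.exp (-(1 / (2 * (T : ℝ)))) := by
  have hT' : (0 : ℝ) < T := by positivity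
  -- closed version
  have hcl : ∀ a : ℝ, 0 ≤ a → ∀ lam : ℝ, 1 - P.real {ω | ∀ q ≤ T, |B q ω| ≤ a} ≤
      Real.exp (lam ^ 2 * T / 2) / Real.cosh (lam * a) := by
    intro a ha lam
    have t1 := tendsto_kil a B hB T (fun m => grid m T) _ (fun m => grid_ne m T)
      (fun m => grid_sum m T) (fun m => grid_mesh m T) (tendsto_mesh T)
    refine le_of_tendsto (tendsto_const_nhds.sub t1) (Eventually.of_forall fun m => ?_)
    have := one_sub_kil_le a ha lam (grid m T) 0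
    rwa [mul_zero, Real.cosh_zero, one_mul, grid_sum] at this
  have hop : ∀ lam : ℝ, 1 - P.real {ω | ∀ q ≤ T, |B q ω| < 1} ≤
      Real.exp (lam ^ 2 * T / 2) / Real.cosh lam := by
    intro lam
    have t1 := tendsto_open 1 B hB T
    have t2 : Tendsto (fun n : ℕ => Real.exp (lam ^ 2 * T / 2) /
        Real.cosh (lam * (1 - 1 / ((n : ℝ) + 1)))) atTop
        (𝓝 (Real.exp (lam ^ 2 * T / 2) / Real.cosh (lam * (1 - 0)))) := by
      refine Tendsto.div tendsto_const_nhds ?_ (Real.cosh_pos _).ne'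
      refine (Real.continuous_cosh.tendsto _).comp ?_
      exact (tendsto_const_nhds.sub tendsto_one_div_add_atTop_nhds_zero_nat).const_mul lam
    rw [sub_zero, mul_one] at t2
    refine le_of_tendsto_of_tendsto' (tendsto_const_nhds.sub t1) t2 fun n => ?_
    refine hcl _ ?_ lam
    have : 1 / ((n : ℝ) + 1) ≤ 1 := by
      rw [div_le_one (by positivity)]
      have : (0 : ℝ) ≤ n := by positivity
      linarith
    linarith
  refine (hop (1 / T)).trans ?_
  have h1 : Real.exp (1 / (T : ℝ)) / 2 ≤ Real.cosh (1 / T) := by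
    rw [Real.cosh_eq]
    have := Real.exp_pos (-(1 / (T : ℝ)))
    linarith
  have h2 : (1 / (T : ℝ)) ^ 2 * T / 2 = 1 / (2 * T) := by field_simp
  rw [h2, div_le_iff₀ (Real.cosh_pos _)]
  calc Real.exp (1 / (2 * T)) = 2 * Real.exp (-(1 / (2 * (T : ℝ)))) * (Real.exp (1 / (T : ℝ)) / 2) := by
        rw [show 2 * Real.exp (-(1 / (2 * (T : ℝ)))) * (Real.exp (1 / (T : ℝ)) / 2) =
          Real.exp (-(1 / (2 * (T : ℝ)))) * Real.exp (1 / (T : ℝ)) by ring, ← Real.exp_add]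
        congr 1; field_simp; ring
    _ ≤ _ := by gcongr

lemma open_antitone (a : ℝ) (B : ℝ≥0 → Ω → ℝ) [IsFiniteMeasure P] :
    Antitone (fun t : ℝ≥0 => P.real {ω | ∀ q ≤ t, |B q ω| < a}) := by
  intro s t hst
  refine measureReal_mono ?_
  intro ω hω q hq
  exact hω q (hq.trans hst)

lemma open_zero (a : ℝ) (ha : 0 < a) (B : ℝ≥0 → Ω → ℝ) (hB : IsBrownianReal B P) :
    P.real {ω | ∀ q ≤ (0 : ℝ≥0), |B q ω| < a} = 1 := by
  have : IsProbabilityMeasure P := hB.isGaussianProcess.isProbabilityMeasure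
  have h : ({ω | ∀ q ≤ (0 : ℝ≥0), |B q ω| < a} : Set Ω) =ᵐ[P] (univ : Set Ω) := by
    filter_upwards [hB.eval_zero_ae_eq_zero] with ω hω
    refine propext (iff_of_true ?_ trivial)
    intro q hq
    have hq0 : q = 0 := le_antisymm hq zero_le
    subst hq0
    rw [hω, abs_zero]; exact ha
  rw [measureReal_def, measure_congr h]
  simp

lemma open_le_gauss (a : ℝ) (B : ℝ≥0 → Ω → ℝ) (hB : IsBrownianReal B P) (t : ℝ≥0) :
    P {ω | ∀ q ≤ t, |B q ω| < a} ≤ gaussianReal 0 t {x | |x| < a} := by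
  have h1 : P {ω | ∀ q ≤ t, |B q ω| < a} ≤ P (B t ⁻¹' {x | |x| < a}) :=
    measure_mono fun ω hω => hω t le_rfl
  refine h1.trans ?_
  have hm : MeasurableSet {x : ℝ | |x| < a} := measurableSet_lt (by fun_prop) measurable_const
  rw [← (hB.hasLaw_eval t).map_eq, Measure.map_apply_of_aemeasurable (hB.aemeasurable t) hm]

lemma open_one_lt (B : ℝ≥0 → Ω → ℝ) (hB : IsBrownianReal B P) :
    P.real {ω | ∀ q ≤ (1 : ℝ≥0), |B q ω| < 1} < 1 := by
  have : IsProbabilityMeasure P := hB.isGaussianProcess.isProbabilityMeasure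
  have h1 := open_le_gauss 1 B hB 1
  have h2 : gaussianReal 0 1 {x : ℝ | |x| < 1} < 1 := by
    have hm : MeasurableSet {x : ℝ | |x| < 1} := measurableSet_lt (by fun_prop) measurable_const
    have hc : gaussianReal 0 1 {x : ℝ | |x| < 1}ᶜ ≠ 0 := by
      intro h0
      have h3 := (gaussianReal_absolutelyContinuous' 0 (one_ne_zero)) h0
      have h4 : volume (Set.Ioi (1 : ℝ)) ≤ volume ({x : ℝ | |x| < 1}ᶜ) := by
        refine measure_mono fun x hx => ?_
        have hx' : (1 : ℝ) < x := hx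
        show ¬ (|x| < 1)
        rw [not_lt, abs_of_pos (by linarith)]
        exact hx'.le
      rw [h3, Real.volume_Ioi] at h4
      simp at h4
    have := prob_compl_eq_one_sub hm (μ := gaussianReal 0 1)
    rw [this] at hc
    exact tsub_pos_iff_lt.1 (pos_iff_ne_zero.2 hc)
  have h3 : P {ω | ∀ q ≤ (1 : ℝ≥0), |B q ω| < 1} < 1 := h1.trans_lt h2
  rw [measureReal_def]
  have := (ENNReal.toReal_lt_toReal (measure_ne_top P _) ENNReal.one_ne_top).2 h3
  simpa using this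

end Pool.Agent.LibBoxExit
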